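import Pool.Agent.P.MP_cf7e4d_co.Process

/-! Deterministic completion of a tentative colouring to a proper list colouring. -/

namespace Pool.Agent.P.MP_cf7e4d_co

open Finset

variable {V C : Type*}

lemma exists_rec [Fintype V] [DecidableEq V] (B : V → Finset V) (ord : V → ℕ)
    (hB : ∀ v, ∀ u ∈ B v, ord u < ord v) (Q : V → (V → C) → C → Prop)
    (hQ : ∀ v c, ∃ x, Q v c x)
    (hloc : ∀ v c c' x, (∀ u ∈ B v, c u = c' u) → Q v c x → Q v c' x) (c0 : V → C) :
    ∃ c, ∀ v, Q v c (c v) := by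
  have key : ∀ s : Finset V, ∃ c, ∀ v ∈ s, Q v c (c v) := by
    intro s
    induction s using Finset.induction_on_max_value ord with
    | empty => exact ⟨c0, by simp⟩
    | insert v s hv hmax ih =>
      obtain ⟨c, hc⟩ := ih
      obtain ⟨x, hx⟩ := hQ v c
      have hag : ∀ w, ord w ≤ ord v → ∀ u ∈ B w, c u = Function.update c v x u := by
        intro w hw u hu
        rw [Function.update_of_ne]
        rintro rfl
        have := hB w u hu
        omega
      refine ⟨Function.update c v x, ?_⟩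
      intro w hw
      rcases mem_insert.1 hw with rfl | hws
      · rw [Function.update_self]
        exact hloc _ _ _ _ (hag w le_rfl) hx
      · rw [Function.update_of_ne (fun h : w = v => hv (h ▸ hws))]
        exact hloc _ _ _ _ (hag w (hmax w hws)) (hc w hws)
  obtain ⟨c, hc⟩ := key univ
  exact ⟨c, fun v => hc v (mem_univ v)⟩

/-- The properties of the completed colouring. -/
def Compl (B : V → Finset V) (L : V → Finset C) (ℓ : C → ℕ) (ψ : V → Option C) (v : V)
    (c : V → C) (y : C) : Prop :=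
  y ∈ L v ∧ (∀ u ∈ B v, c u ≠ y) ∧
    (ψ v = some y ∨ ((∀ x ∈ L v, ψ v = some x → ∃ u ∈ B v, c u = x) ∧
      ∀ x ∈ L v, ℓ y < ℓ x → ∃ u ∈ B v, c u = x))

theorem complete [Fintype V] [DecidableEq V] [DecidableEq C] (B : V → Finset V) (ord : V → ℕ)
    (hB : ∀ v, ∀ u ∈ B v, ord u < ord v) (L : V → Finset C)
    (hL : ∀ v, (B v).card < (L v).card) (ℓ : C → ℕ) (ψ : V → Option C) :
    ∃ c : V → C, ∀ v, Compl B L ℓ ψ v c (c v) := by
  have hne : ∀ v, (L v).Nonempty := fun v => card_pos.1 (lt_of_le_of_lt (Nat.zero_le _) (hL v))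
  apply exists_rec B ord hB (Compl B L ℓ ψ) _ _ (fun v => (hne v).choose)
  · intro v c
    by_cases h : ∃ x ∈ L v, ψ v = some x ∧ ∀ u ∈ B v, c u ≠ x
    · obtain ⟨x, hx, h1, h2⟩ := h
      exact ⟨x, hx, h2, Or.inl h1⟩
    · push Not at h
      have hfree : (L v \ (B v).image c).Nonempty := by
        rw [sdiff_nonempty]
        intro hsub
        have := (card_le_card hsub).trans card_image_le
        have := hL v
        omega
      obtain ⟨y, hy, hmax⟩ := exists_max_image _ ℓ hfree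
      rw [mem_sdiff, mem_image] at hy
      refine ⟨y, hy.1, fun u hu h' => hy.2 ⟨u, hu, h'⟩, Or.inr ⟨h, ?_⟩⟩
      intro x hx hlt
      by_contra hcon
      have := hmax x (mem_sdiff.2 ⟨hx, fun h' => hcon (mem_image.1 h')⟩)
      omega
  · rintro v c c' x hag ⟨h1, h2, h3⟩
    refine ⟨h1, fun u hu => hag u hu ▸ h2 u hu, h3.imp id ?_⟩
    rintro ⟨h4, h5⟩
    constructor
    · intro z hz hψ
      obtain ⟨u, hu, h6⟩ := h4 z hz hψ
      exact ⟨u, hu, hag u hu ▸ h6⟩
    · intro z hz hψ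
      obtain ⟨u, hu, h6⟩ := h5 z hz hψ
      exact ⟨u, hu, hag u hu ▸ h6⟩

/-- Iterated back-neighbourhood. -/
def ball [DecidableEq V] (B : V → Finset V) : ℕ → V → Finset V
  | 0, v => {v}
  | n + 1, v => insert v ((B v).biUnion (ball B n))

lemma self_mem_ball [DecidableEq V] (B : V → Finset V) (n : ℕ) (v : V) : v ∈ ball B n v := by
  cases n <;> simp [ball]

lemma ball_sub [DecidableEq V] (B : V → Finset V) (n : ℕ) {v u : V} (hu : u ∈ B v) :
    ball B n u ⊆ ball B (n + 1) v := fun _ hz =>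
  mem_insert_of_mem (mem_biUnion.2 ⟨u, hu, hz⟩)

lemma card_ball [DecidableEq V] (B : V → Finset V) {d : ℕ} (hd : ∀ v, (B v).card ≤ d) (n : ℕ)
    (v : V) : (ball B n v).card ≤ (d + 1) ^ n := by
  induction n generalizing v with
  | zero => simp [ball]
  | succ n ih =>
    calc (ball B (n + 1) v).card ≤ ((B v).biUnion (ball B n)).card + 1 := card_insert_le _ _
      _ ≤ (B v).card * (d + 1) ^ n + 1 := by
        gcongr
        exact card_biUnion_le_card_mul _ _ _ fun u _ => ih u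
      _ ≤ d * (d + 1) ^ n + (d + 1) ^ n :=
        add_le_add (Nat.mul_le_mul_right _ (hd v)) (Nat.one_le_pow _ _ (by omega))
      _ = (d + 1) ^ (n + 1) := by ring

/-- The typical behaviour at a vertex. -/
def Good (B : V → Finset V) (L : V → Finset C) (D : ℕ → ℝ) (R : ℕ) (ℓ : C → ℕ)
    (ψ : V → Option C) (z : V) : Prop :=
  ∀ i < R, cnt ℓ ψ i (B z) ≤ D i ∧ D i < ∑ x ∈ L z, ind (i < ℓ x)

section Keep

variable [DecidableEq V] {B : V → Finset V} {L : V → Finset C} {D : ℕ → ℝ} {R : ℕ} {ℓ : C → ℕ}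
  {ψ : V → Option C} {Y : Finset C} {c : V → C}

omit [DecidableEq V] in
lemma blocked (hψ : Supp B L ℓ D Y ψ) (hc : ∀ v, Compl B L ℓ ψ v c (c v)) {v : V} {y : C}
    (hv : ψ v = some y) (hR : ℓ y < R) (hg : Good B L D R ℓ ψ v) (hne : ψ v ≠ some (c v)) :
    ∃ w ∈ B v, c w = y ∧ ψ w ≠ some (c w) := by
  obtain ⟨-, hyL, hno⟩ := hψ v y hv
  obtain ⟨w, hw, hcw⟩ := ((hc v).2.2.resolve_left hne).1 y hyL hv
  exact ⟨w, hw, hcw, hcw ▸ hno (hg _ hR).1 w hw⟩

lemma recolour_level (hψ : Supp B L ℓ D Y ψ) (hc : ∀ v, Compl B L ℓ ψ v c (c v)) (i : ℕ)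
    (hi : i ≤ R) (v : V) (hg : ∀ z ∈ ball B (2 * i) v, Good B L D R ℓ ψ z)
    (hne : ψ v ≠ some (c v)) : i ≤ ℓ (c v) := by
  induction i generalizing v with
  | zero => exact Nat.zero_le _
  | succ i ih =>
    by_contra hlt
    push Not at hlt
    have hgv := hg v (self_mem_ball _ _ _) i (by omega)
    have hused := ((hc v).2.2.resolve_left hne).2
    have hlate : ∀ u ∈ B v, i < ℓ (c u) → late ℓ ψ i u := by
      intro u hu hcu x hx
      by_contra hx'
      push Not at hx'
      have hneu : ψ u ≠ some (c u) := by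
        rw [hx]
        intro h
        simp only [Option.some.injEq] at h
        rw [← h] at hcu
        omega
      have hsub : ball B (2 * i + 1) u ⊆ ball B (2 * (i + 1)) v := ball_sub B _ hu
      obtain ⟨w, hw, hcw, hnew⟩ := blocked hψ hc hx (by omega)
        (hg u (hsub (self_mem_ball _ _ _))) hneu
      have := ih (by omega) w (fun z hz => hg z (hsub (ball_sub B _ hw hz))) hnew
      rw [hcw] at this
      omega
    have h1 : ∑ x ∈ L v, ind (i < ℓ x) ≤ cnt ℓ ψ i (B v) := by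
      calc ∑ x ∈ L v, ind (i < ℓ x) ≤ ∑ x ∈ L v, ∑ u ∈ B v, ind (c u = x ∧ late ℓ ψ i u) := by
            refine sum_le_sum fun x hx => ?_
            by_cases hix : i < ℓ x
            · obtain ⟨u, hu, hcu⟩ := hused x hx (by omega)
              rw [ind_pos hix, ← ind_pos (p := c u = x ∧ late ℓ ψ i u)
                ⟨hcu, hlate u hu (hcu ▸ hix)⟩]
              exact single_le_sum (f := fun u => ind (c u = x ∧ late ℓ ψ i u))
                (fun _ _ => ind_nonneg _) hu
            · rw [ind_neg hix]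
              exact sum_nonneg fun _ _ => ind_nonneg _
        _ = ∑ u ∈ B v, ∑ x ∈ L v, ind (c u = x ∧ late ℓ ψ i u) := sum_comm
        _ ≤ cnt ℓ ψ i (B v) := by
            refine sum_le_sum fun u _ => ?_
            by_cases hcu : c u ∈ L v
            · rw [sum_eq_single (c u)]
              · exact ind_mono fun h => h.2
              · intro b _ hb
                exact ind_neg fun h => hb h.1.symm
              · intro h
                exact absurd hcu h
            · rw [sum_eq_zero]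
              · exact ind_nonneg _
              · intro x hx
                exact ind_neg fun h => hcu (h.1 ▸ hx)
    linarith [hgv.1, hgv.2]

theorem keep (hψ : Supp B L ℓ D Y ψ) (hc : ∀ v, Compl B L ℓ ψ v c (c v)) {v : V} {y : C}
    (hv : ψ v = some y) (hR : ℓ y < R) (hg : ∀ z ∈ ball B (2 * R + 1) v, Good B L D R ℓ ψ z) :
    c v = y := by
  by_contra hne
  have hne' : ψ v ≠ some (c v) := by
    rw [hv]
    intro h
    simp only [Option.some.injEq] at h
    exact hne h.symm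
  obtain ⟨w, hw, hcw, hnew⟩ := blocked hψ hc hv hR (hg v (self_mem_ball _ _ _)) hne'
  have := recolour_level hψ hc R le_rfl w (fun z hz => hg z (ball_sub B _ hw hz)) hnew
  rw [hcw] at this
  omega

end Keep

section Labels

variable [DecidableEq C]

/-- Independent labels. -/
theorem labels (J : Finset ℕ) (p : ℕ → ℝ) (hp : ∀ j, 0 ≤ p j) (hs : ∑ j ∈ J, p j = 1)
    (U : Finset C) :
    ∃ E : ((C → ℕ) → ℝ) →ₗ[ℝ] ℝ, IsEx (fun _ => True) E ∧
      ∀ g : C → ℕ → ℝ, E (fun ℓ => ∏ x ∈ U, g x (ℓ x)) = ∏ x ∈ U, ∑ j ∈ J, p j * g x j := by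
  induction U using Finset.induction_on with
  | empty => exact ⟨LinearMap.proj (fun _ => 0), dirac_isEx _ trivial, by simp⟩
  | insert y U hy ih =>
    obtain ⟨E, hE, hg⟩ := ih
    set K : (C → ℕ) → (((C → ℕ) → ℝ) →ₗ[ℝ] ℝ) :=
      fun ℓ => ∑ j ∈ J, p j • LinearMap.proj (Function.update ℓ y j) with hK
    have hKa : ∀ ℓ f, K ℓ f = ∑ j ∈ J, p j * f (Function.update ℓ y j) := by
      intro ℓ f
      simp [hK]
    refine ⟨bind E K, hE.bind fun ℓ _ => ⟨by simp [hKa, hs], fun f hf => ?_⟩, ?_⟩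
    · rw [hKa]
      exact sum_nonneg fun j _ => mul_nonneg (hp j) (hf _ trivial)
    · intro g
      rw [bind_apply, prod_insert hy, ← hg, ← E_mul]
      congr 1
      ext ℓ
      rw [hKa, sum_mul]
      refine sum_congr rfl fun j _ => ?_
      rw [prod_insert hy, Function.update_self, mul_assoc]
      congr 2
      refine prod_congr rfl fun x hx => ?_
      rw [Function.update_of_ne (fun h : x = y => hy (h ▸ hx))]

/-- Lower tail bound for sums of functions of independent labels. -/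
theorem label_tail {J : Finset ℕ} {p : ℕ → ℝ} (hp : ∀ j, 0 ≤ p j) (hs : ∑ j ∈ J, p j = 1)
    {U : Finset C} {E : ((C → ℕ) → ℝ) →ₗ[ℝ] ℝ} (hE : IsEx (fun _ => True) E)
    (hg : ∀ g : C → ℕ → ℝ, E (fun ℓ => ∏ x ∈ U, g x (ℓ x)) = ∏ x ∈ U, ∑ j ∈ J, p j * g x j)
    {T : Finset C} (hT : T ⊆ U) (h : ℕ → ℝ) {H : ℝ} (h0 : ∀ j, 0 ≤ h j) (hH : ∀ j, h j ≤ H)
    {s : ℝ} (hs0 : 0 ≤ s) (thr : ℝ) :
    E (fun ℓ => ind (∑ x ∈ T, h (ℓ x) ≤ thr)) ≤
      Real.exp (s * thr - T.card * ((∑ j ∈ J, p j * h j) * (s - s ^ 2 * H / 2))) := by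
  have h1 : E (fun ℓ => ind (∑ x ∈ T, h (ℓ x) ≤ thr)) ≤ E (fun ℓ => Real.exp (s * thr) *
      ∏ x ∈ U, (fun x j => if x ∈ T then Real.exp (-(s * h j)) else 1) x (ℓ x)) := by
    apply hE.mono
    intro ℓ _
    simp only
    rw [prod_ite_mem, inter_eq_right.2 hT, ← Real.exp_sum, ← Real.exp_add]
    by_cases hc : ∑ x ∈ T, h (ℓ x) ≤ thr
    · rw [ind_pos hc]
      apply Real.one_le_exp
      rw [sum_neg_distrib, ← mul_sum]
      nlinarith
    · rw [ind_neg hc]
      exact (Real.exp_pos _).le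
  refine h1.trans ?_
  rw [E_mul, hg (fun x j => if x ∈ T then Real.exp (-(s * h j)) else 1), sub_eq_add_neg,
    Real.exp_add]
  apply mul_le_mul_of_nonneg_left _ (Real.exp_pos _).le
  have h2 : ∀ x, ∑ j ∈ J, p j * (if x ∈ T then Real.exp (-(s * h j)) else 1) =
      if x ∈ T then ∑ j ∈ J, p j * Real.exp (-(s * h j)) else 1 := by
    intro x
    by_cases hx : x ∈ T <;> simp [hx, hs]
  simp only [h2]
  rw [prod_ite_mem, inter_eq_right.2 hT, prod_const, ← mul_neg, Real.exp_nat_mul]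
  apply pow_le_pow_left₀ (sum_nonneg fun j _ => mul_nonneg (hp j) (Real.exp_pos _).le)
  refine le_trans ?_ (Real.add_one_le_exp _)
  calc ∑ j ∈ J, p j * Real.exp (-(s * h j))
      ≤ ∑ j ∈ J, (p j - p j * h j * (s - s ^ 2 * H / 2)) := by
        refine sum_le_sum fun j _ => ?_
        have h3 := exp_neg_le_quad (mul_nonneg hs0 (h0 j))
        have h4 : (s * h j) ^ 2 / 2 ≤ h j * (s ^ 2 * H / 2) := by
          have := mul_le_mul_of_nonneg_left (hH j) (mul_nonneg (h0 j) (sq_nonneg s))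
          nlinarith
        nlinarith [hp j]
    _ = -((∑ j ∈ J, p j * h j) * (s - s ^ 2 * H / 2)) + 1 := by
        rw [sum_sub_distrib, hs, sum_mul]
        ring

end Labels

end Pool.Agent.P.MP_cf7e4d_co
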