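import Pool.Agent.P.MP_cf7e4d_co.Complete

/-! The core estimate: a random proper list colouring with almost uniform marginals. -/

namespace Pool.Agent.P.MP_cf7e4d_co

open Finset

lemma geom (ζ : ℝ) (n : ℕ) : ∑ j ∈ range n, ζ * (1 - ζ) ^ j = 1 - (1 - ζ) ^ n := by
  induction n with
  | zero => simp
  | succ n ih => rw [sum_range_succ, ih]; ring

lemma sum_ind_lt {i n : ℕ} (hi : i ≤ n) (f : ℕ → ℝ) :
    ∑ j ∈ range n, ind (j < i) * f j = ∑ j ∈ range i, f j := by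
  rw [← sum_subset (range_mono hi)]
  · exact sum_congr rfl fun j hj => by rw [ind_pos (mem_range.1 hj), one_mul]
  · intro j _ hj
    rw [ind_neg (by simpa using hj), zero_mul]

lemma exp_le_one_sub {x ζ : ℝ} (hx : 0 ≤ x) (hζ : 0 ≤ ζ) (h : x * (1 + ζ) ≤ ζ) :
    Real.exp (-(x * (1 + ζ))) ≤ 1 - x := by
  have hy : 0 ≤ x * (1 + ζ) := by positivity
  have hpos : 0 < x * (1 + ζ) + 1 := by positivity
  rw [Real.exp_neg]
  calc (Real.exp (x * (1 + ζ)))⁻¹ ≤ (x * (1 + ζ) + 1)⁻¹ := inv_anti₀ hpos (Real.add_one_le_exp _)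
    _ ≤ 1 - x := by
      rw [inv_le_iff_one_le_mul₀ hpos]
      nlinarith [mul_le_mul_of_nonneg_left h hx]

lemma exp_step {ζ : ℝ} (h0 : 0 ≤ ζ) (h1 : ζ ≤ 1 / 10) : Real.exp (-(ζ * (1 + ζ))) ≤ 1 - ζ := by
  have := exp_neg_le_quad (t := ζ * (1 + ζ)) (by positivity)
  nlinarith [sq_nonneg ζ, mul_nonneg h0 (sq_nonneg ζ), mul_nonneg (sq_nonneg ζ) (sq_nonneg ζ)]

lemma exp_half {ζ : ℝ} (h0 : 0 ≤ ζ) (h1 : ζ ≤ 1 / 10) : Real.exp (ζ / 2) ≤ 1 + ζ := by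
  have h2 := Real.add_one_le_exp (-(ζ / 2))
  have h3 : Real.exp (ζ / 2) * Real.exp (-(ζ / 2)) = 1 := by rw [← Real.exp_add]; simp
  have h4 := Real.exp_pos (ζ / 2)
  nlinarith

/-- label probabilities -/
noncomputable def pp (ζ : ℝ) (R : ℕ) (j : ℕ) : ℝ := if j < R then ζ * (1 - ζ) ^ j else (1 - ζ) ^ R
/-- rates -/
noncomputable def rr (ζ : ℝ) (R k : ℕ) (j : ℕ) : ℝ :=
  if j < R then (1 + 2 * ζ) / k / (1 - ζ) ^ j else 0
/-- degree thresholds -/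
noncomputable def DD (ζ : ℝ) (k : ℕ) (j : ℕ) : ℝ := (1 - 4 * ζ) * k * (1 - ζ) ^ j

lemma pp_sum (ζ : ℝ) (R : ℕ) : ∑ j ∈ range (R + 1), pp ζ R j = 1 := by
  rw [sum_range_succ, sum_congr rfl (g := fun j => ζ * (1 - ζ) ^ j), geom]
  · simp [pp]
  · intro j hj
    simp [pp, mem_range.1 hj]

lemma pp_tail (ζ : ℝ) {R i : ℕ} (hi : i < R) :
    ∑ j ∈ range (R + 1), pp ζ R j * ind (i < j) = (1 - ζ) ^ (i + 1) := by
  have h1 : ∀ j, pp ζ R j * ind (i < j) = pp ζ R j - ind (j < i + 1) * pp ζ R j := by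
    intro j
    by_cases h : i < j
    · rw [ind_pos h, ind_neg (by omega)]; ring
    · rw [ind_neg h, ind_pos (by omega)]; ring
  simp only [h1]
  rw [sum_sub_distrib, pp_sum, sum_ind_lt (by omega),
    sum_congr rfl (g := fun j => ζ * (1 - ζ) ^ j), geom]
  · ring
  · intro j hj
    have : j < R := by have := mem_range.1 hj; omega
    simp [pp, this]

lemma pp_rr {ζ : ℝ} (hζ : ζ < 1) {R i : ℕ} (k : ℕ) (hi : i < R) :
    pp ζ R i * rr ζ R k i = ζ * ((1 + 2 * ζ) / k) := by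
  have : (1 - ζ) ^ i ≠ 0 := pow_ne_zero _ (by linarith)
  simp only [pp, rr, hi, if_true]
  field_simp

lemma pp_mean {ζ : ℝ} (hζ : ζ < 1) {R i : ℕ} (k : ℕ) (hi : i ≤ R) :
    ∑ j ∈ range (R + 1), pp ζ R j * (ind (j < i) * rr ζ R k j) = i * (ζ * ((1 + 2 * ζ) / k)) := by
  simp only [mul_left_comm (pp ζ R _)]
  rw [sum_ind_lt (by omega), sum_congr rfl (g := fun _ => ζ * ((1 + 2 * ζ) / k))]
  · simp
  · intro j hj
    exact pp_rr hζ k (by have := mem_range.1 hj; omega)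

section Params

variable {ζ : ℝ} {R k : ℕ}

lemma pp_nonneg (h0 : 0 < ζ) (h1 : ζ ≤ 1 / 10) (j : ℕ) : 0 ≤ pp ζ R j := by
  have : 0 < 1 - ζ := by linarith
  unfold pp
  split_ifs <;> positivity

lemma rr_nonneg (h0 : 0 < ζ) (h1 : ζ ≤ 1 / 10) (j : ℕ) : 0 ≤ rr ζ R k j := by
  have : 0 < 1 - ζ := by linarith
  unfold rr
  split_ifs <;> positivity

lemma rr_le (h0 : 0 < ζ) (h1 : ζ ≤ 1 / 10) (j : ℕ) :
    rr ζ R k j ≤ (1 + 2 * ζ) / k / (1 - ζ) ^ R := by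
  have : 0 < 1 - ζ := by linarith
  unfold rr
  split_ifs with h
  · apply div_le_div_of_nonneg_left (by positivity) (by positivity)
    exact pow_le_pow_of_le_one this.le (by linarith) h.le
  · positivity

lemma DD_rr (h0 : 0 < ζ) (h1 : ζ ≤ 1 / 10) (hk : 0 < k) (j : ℕ) :
    DD ζ k j * rr ζ R k j ≤ 1 - 2 * ζ := by
  have : 0 < 1 - ζ := by linarith
  unfold rr DD
  split_ifs with h
  · have hk' : (k : ℝ) ≠ 0 := by positivity
    have : (1 - 4 * ζ) * k * (1 - ζ) ^ j * ((1 + 2 * ζ) / k / (1 - ζ) ^ j) =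
        (1 - 4 * ζ) * (1 + 2 * ζ) := by field_simp
    rw [this]
    nlinarith
  · linarith

/-- The marginal sum. -/
lemma marg_sum (h0 : 0 < ζ) (h1 : ζ ≤ 1 / 10) (hk : 0 < k) (ht : (1 - ζ) ^ R ≤ ζ)
    (hx : ∀ i < R, ((i + 1 : ℕ) : ℝ) * (ζ * ((1 + 2 * ζ) / k)) * (1 + ζ) ≤ ζ) :
    (1 - 5 * ζ) / k ≤ ∑ i ∈ range R,
      ζ * ((1 + 2 * ζ) / k) * (1 - ((i + 1 : ℕ) : ℝ) * (ζ * ((1 + 2 * ζ) / k))) ^ k := by
  have hk' : (0 : ℝ) < k := by positivity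
  set η : ℝ := ζ * (1 + 4 * ζ) with hη
  have hη1 : 0 ≤ 1 - η := by nlinarith
  have h2 : ∀ i ∈ range R, ζ * ((1 + 2 * ζ) / k) * ((1 - η) * (1 - η) ^ i) ≤
      ζ * ((1 + 2 * ζ) / k) * (1 - ((i + 1 : ℕ) : ℝ) * (ζ * ((1 + 2 * ζ) / k))) ^ k := by
    intro i hi
    apply mul_le_mul_of_nonneg_left _ (by positivity)
    have h3 := exp_le_one_sub (by positivity) h0.le (hx i (mem_range.1 hi))
    refine le_trans ?_ (pow_le_pow_left₀ (Real.exp_pos _).le h3 k)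
    rw [← Real.exp_nat_mul, ← pow_succ']
    have h4 : (k : ℝ) * -(((i + 1 : ℕ) : ℝ) * (ζ * ((1 + 2 * ζ) / k)) * (1 + ζ)) =
        ((i + 1 : ℕ) : ℝ) * -(ζ * (1 + 2 * ζ) * (1 + ζ)) := by field_simp
    rw [h4, Real.exp_nat_mul]
    apply pow_le_pow_left₀ hη1
    refine le_trans ?_ (Real.add_one_le_exp _)
    nlinarith [sq_nonneg ζ]
  refine le_trans ?_ (sum_le_sum h2)
  have h5 := geom η R
  have h6 : (1 - η) ^ R ≤ ζ := le_trans (pow_le_pow_left₀ hη1 (by nlinarith) R) ht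
  rw [← mul_sum] at h5
  rw [← mul_sum, ← mul_sum]
  set S := ∑ i ∈ range R, (1 - η) ^ i
  have hS : 0 ≤ S := sum_nonneg fun _ _ => pow_nonneg hη1 _
  have h7 : 1 - ζ ≤ ζ * S * (1 + 4 * ζ) := by nlinarith
  have h8 : ζ * ((1 + 2 * ζ) / k) * ((1 - η) * S) = ((1 + 2 * ζ) * (1 - η) * (ζ * S)) / k := by
    field_simp
  rw [h8]
  apply div_le_div_of_nonneg_right _ hk'.le
  have h9 : 0 < 1 + 4 * ζ := by linarith
  have h10 : 0 ≤ (1 + 2 * ζ) * (1 - η) := by positivity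
  have h11 : (1 - 5 * ζ) * (1 + 4 * ζ) ≤ (1 + 2 * ζ) * (1 - η) * (1 - ζ) := by
    simp only [hη]
    nlinarith [sq_nonneg ζ, mul_nonneg h0.le (sq_nonneg ζ), mul_nonneg (sq_nonneg ζ) (sq_nonneg ζ)]
  have h12 := mul_le_mul_of_nonneg_left h7 h10
  by_contra hcon
  push Not at hcon
  nlinarith

end Params

end Pool.Agent.P.MP_cf7e4d_co
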