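import Mathlib

/-! Finite expectation functionals and the one-colour sampler. -/

namespace Pool.Agent.P.MP_cf7e4d_co

open Finset

/-- Real indicator of a proposition. -/
noncomputable def ind (p : Prop) : ℝ := by classical exact if p then 1 else 0

lemma ind_pos {p : Prop} (h : p) : ind p = 1 := by simp [ind, h]
lemma ind_neg {p : Prop} (h : ¬ p) : ind p = 0 := by simp [ind, h]
lemma ind_nonneg (p : Prop) : 0 ≤ ind p := by by_cases h : p <;> simp [ind, h]
lemma ind_le_one (p : Prop) : ind p ≤ 1 := by by_cases h : p <;> simp [ind, h]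
lemma ind_congr {p q : Prop} (h : p ↔ q) : ind p = ind q := by rw [propext h]
lemma ind_mono {p q : Prop} (h : p → q) : ind p ≤ ind q := by
  by_cases hp : p
  · rw [ind_pos hp, ind_pos (h hp)]
  · rw [ind_neg hp]; exact ind_nonneg q
lemma ind_and (p q : Prop) : ind (p ∧ q) = ind p * ind q := by
  by_cases hp : p <;> by_cases hq : q <;> simp [ind, hp, hq]

/-- `E` is an expectation functional carried by the set of points satisfying `P`. -/
structure IsEx {S : Type*} (P : S → Prop) (E : (S → ℝ) →ₗ[ℝ] ℝ) : Prop where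
  one : E (fun _ => 1) = 1
  nonneg : ∀ f : S → ℝ, (∀ s, P s → 0 ≤ f s) → 0 ≤ E f

namespace IsEx

variable {S T : Type*} {P : S → Prop} {E : (S → ℝ) →ₗ[ℝ] ℝ}

lemma mono (h : IsEx P E) {f g : S → ℝ} (hfg : ∀ s, P s → f s ≤ g s) : E f ≤ E g := by
  have := h.nonneg (g - f) (fun s hs => by simpa using hfg s hs)
  rw [map_sub] at this
  linarith

lemma congr (h : IsEx P E) {f g : S → ℝ} (hfg : ∀ s, P s → f s = g s) : E f = E g :=
  le_antisymm (h.mono fun s hs => (hfg s hs).le) (h.mono fun s hs => (hfg s hs).ge)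

lemma const (h : IsEx P E) (c : ℝ) : E (fun _ => c) = c := by
  have : (fun _ : S => c) = c • (fun _ : S => (1 : ℝ)) := by ext; simp
  rw [this, map_smul, h.one]; simp

lemma le_const (h : IsEx P E) {f : S → ℝ} {c : ℝ} (hf : ∀ s, P s → f s ≤ c) : E f ≤ c := by
  have := h.mono (g := fun _ => c) hf
  rwa [h.const] at this

lemma const_le (h : IsEx P E) {f : S → ℝ} {c : ℝ} (hf : ∀ s, P s → c ≤ f s) : c ≤ E f := by
  have := h.mono (f := fun _ => c) hf
  rwa [h.const] at this

end IsEx

lemma E_add {S : Type*} (E : (S → ℝ) →ₗ[ℝ] ℝ) (f g : S → ℝ) :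
    E (fun s => f s + g s) = E f + E g := map_add E f g

lemma E_sub {S : Type*} (E : (S → ℝ) →ₗ[ℝ] ℝ) (f g : S → ℝ) :
    E (fun s => f s - g s) = E f - E g := map_sub E f g

lemma E_mul {S : Type*} (E : (S → ℝ) →ₗ[ℝ] ℝ) (c : ℝ) (f : S → ℝ) :
    E (fun s => c * f s) = c * E f := map_smul E c f

lemma E_sum {S ι : Type*} (E : (S → ℝ) →ₗ[ℝ] ℝ) (t : Finset ι) (f : ι → S → ℝ) :
    E (fun s => ∑ i ∈ t, f i s) = ∑ i ∈ t, E (f i) := by
  rw [← map_sum]
  congr 1
  ext s
  simp

/-- Composition of an expectation with a kernel. -/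
noncomputable def bind {S T : Type*} (E : (S → ℝ) →ₗ[ℝ] ℝ) (K : S → ((T → ℝ) →ₗ[ℝ] ℝ)) :
    (T → ℝ) →ₗ[ℝ] ℝ := E ∘ₗ LinearMap.pi K

lemma bind_apply {S T : Type*} (E : (S → ℝ) →ₗ[ℝ] ℝ) (K : S → ((T → ℝ) →ₗ[ℝ] ℝ))
    (f : T → ℝ) : bind E K f = E (fun s => K s f) := rfl

lemma IsEx.bind {S T : Type*} {P : S → Prop} {Q : T → Prop} {E : (S → ℝ) →ₗ[ℝ] ℝ}
    {K : S → ((T → ℝ) →ₗ[ℝ] ℝ)} (h : IsEx P E) (hK : ∀ s, P s → IsEx Q (K s)) :
    IsEx Q (bind E K) where
  one := by
    rw [bind_apply, h.congr (g := fun _ => 1) (fun s hs => (hK s hs).one), h.one]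
  nonneg f hf := by
    rw [bind_apply]
    exact h.nonneg _ fun s hs => (hK s hs).nonneg f hf

/-- Push forward along a map. -/
noncomputable def push {S T : Type*} (E : (S → ℝ) →ₗ[ℝ] ℝ) (g : S → T) :
    (T → ℝ) →ₗ[ℝ] ℝ := E ∘ₗ LinearMap.funLeft ℝ ℝ g

lemma push_apply {S T : Type*} (E : (S → ℝ) →ₗ[ℝ] ℝ) (g : S → T) (f : T → ℝ) :
    push E g f = E (fun s => f (g s)) := rfl

lemma IsEx.push {S T : Type*} {P : S → Prop} {Q : T → Prop} {E : (S → ℝ) →ₗ[ℝ] ℝ}
    (h : IsEx P E) (g : S → T) (hg : ∀ s, P s → Q (g s)) : IsEx Q (push E g) where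
  one := h.one
  nonneg f hf := h.nonneg _ fun s hs => hf _ (hg s hs)

/-- Two point distribution. -/
noncomputable def coin {T : Type*} (q : ℝ) (x y : T) : (T → ℝ) →ₗ[ℝ] ℝ :=
  q • LinearMap.proj x + (1 - q) • LinearMap.proj y

lemma coin_apply {T : Type*} (q : ℝ) (x y : T) (f : T → ℝ) :
    coin q x y f = q * f x + (1 - q) * f y := by simp [coin]

lemma dirac_isEx {T : Type*} {Q : T → Prop} (x : T) (hx : Q x) :
    IsEx Q (LinearMap.proj (R := ℝ) (φ := fun _ : T => ℝ) x) where
  one := rfl
  nonneg f hf := hf x hx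

section Sampler

variable {V : Type*} [DecidableEq V]

/-- The one-colour sampler: every vertex of `A` is selected with probability exactly `r`, pairs
with probability at most `r * (r / a)`, and a selected vertex with few back-neighbours in `A`
has no selected back-neighbour. -/
theorem sampler (B : V → Finset V) (ord : V → ℕ) (hB : ∀ v, ∀ u ∈ B v, ord u < ord v)
    {r a D : ℝ} (hr : 0 ≤ r) (ha : 0 < a) (hra : r ≤ a) (ha1 : a ≤ 1) (hD : D * r ≤ 1 - a)
    (A : Finset V) :
    ∃ E : (Finset V → ℝ) →ₗ[ℝ] ℝ,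
      IsEx (fun S => S ⊆ A ∧ ∀ v ∈ S, ((B v ∩ A).card : ℝ) ≤ D → ∀ u ∈ B v, u ∉ S) E ∧
      (∀ v ∈ A, E (fun S => ind (v ∈ S)) = r) ∧
      (∀ u v, u ≠ v → E (fun S => ind (u ∈ S ∧ v ∈ S)) ≤ r * (r / a)) := by
  induction A using Finset.induction_on_max_value ord with
  | empty =>
    refine ⟨LinearMap.proj ∅, dirac_isEx _ (by simp), by simp, ?_⟩
    intro u v _
    simp only [LinearMap.coe_proj, Function.eval]
    rw [ind_neg (by simp)]
    positivity
  | insert v A hv hmax ih =>
    obtain ⟨E, hE, h1, h2⟩ := ih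
    have hvB : ∀ u, ord u ≤ ord v → B u ∩ insert v A = B u ∩ A := by
      intro u hu
      ext x
      simp only [mem_inter, mem_insert]
      constructor
      · rintro ⟨hx, rfl | hx'⟩
        · exact absurd (hB u x hx) (by omega)
        · exact ⟨hx, hx'⟩
      · rintro ⟨hx, hx'⟩
        exact ⟨hx, Or.inr hx'⟩
    set χ : Finset V → ℝ := fun S => ind (((B v ∩ A).card : ℝ) ≤ D → ∀ u ∈ B v, u ∉ S) with hχ
    have hα : a ≤ E χ := by
      by_cases hg : ((B v ∩ A).card : ℝ) ≤ D
      · have h3 : E (fun S => 1 - ∑ u ∈ B v ∩ A, ind (u ∈ S)) ≤ E χ := by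
          apply hE.mono
          intro S hS
          by_cases hc : ∀ u ∈ B v, u ∉ S
          · have : χ S = 1 := ind_pos fun _ => hc
            rw [this]
            have : 0 ≤ ∑ u ∈ B v ∩ A, ind (u ∈ S) := sum_nonneg fun _ _ => ind_nonneg _
            linarith
          · push Not at hc
            obtain ⟨u, hu, huS⟩ := hc
            have h4 : ind (u ∈ S) ≤ ∑ u ∈ B v ∩ A, ind (u ∈ S) :=
              single_le_sum (f := fun u => ind (u ∈ S)) (fun _ _ => ind_nonneg _)
                (mem_inter.2 ⟨hu, hS.1 huS⟩)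
            rw [ind_pos huS] at h4
            have := ind_nonneg (((B v ∩ A).card : ℝ) ≤ D → ∀ u ∈ B v, u ∉ S)
            simp only [hχ]
            linarith
        rw [E_sub, E_sum, hE.one, sum_congr rfl (fun u hu => h1 u (mem_inter.1 hu).2)] at h3
        simp only [sum_const, nsmul_eq_mul] at h3
        nlinarith
      · have : E χ = 1 := by
          rw [hE.congr (g := fun _ => 1) (fun S _ => ind_pos fun h => absurd h hg), hE.one]
        linarith
    have hαpos : 0 < E χ := lt_of_lt_of_le ha hα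
    set q : ℝ := r / E χ with hq
    have hq0 : 0 ≤ q := div_nonneg hr hαpos.le
    have hqa : q ≤ r / a := div_le_div_of_nonneg_left hr ha hα
    have hq1 : q ≤ 1 := hqa.trans ((div_le_one ha).2 hra)
    refine ⟨bind E (fun S => coin (q * χ S) (insert v S) S), hE.bind ?_, ?_, ?_⟩
    · rintro S ⟨hSA, hS⟩
      have hχ0 : 0 ≤ χ S := ind_nonneg _
      have hχ1 : χ S ≤ 1 := ind_le_one _
      refine ⟨by simp [coin_apply], ?_⟩
      intro f hf
      rw [coin_apply]
      have hfS : 0 ≤ f S := by
        apply hf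
        refine ⟨hSA.trans (subset_insert _ _), ?_⟩
        intro x hx hc
        rw [hvB x (hmax x (hSA hx))] at hc
        exact hS x hx hc
      by_cases hc : ((B v ∩ A).card : ℝ) ≤ D → ∀ u ∈ B v, u ∉ S
      · have hfI : 0 ≤ f (insert v S) := by
          apply hf
          refine ⟨insert_subset_insert _ hSA, ?_⟩
          intro x hx hcx u hu huS
          rcases mem_insert.1 hx with rfl | hxS
          · rw [hvB x le_rfl] at hcx
            rcases mem_insert.1 huS with rfl | huS
            · exact absurd (hB u u hu) (lt_irrefl _)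
            · exact hc hcx u hu huS
          · rw [hvB x (hmax x (hSA hxS))] at hcx
            rcases mem_insert.1 huS with rfl | huS
            · have := hB x u hu
              have := hmax x (hSA hxS)
              omega
            · exact hS x hxS hcx u hu huS
        have : 0 ≤ 1 - q * χ S := by nlinarith
        positivity
      · have : χ S = 0 := ind_neg hc
        rw [this]
        simpa using hfS
    · intro x hx
      rw [bind_apply]
      rcases mem_insert.1 hx with rfl | hxA
      · rw [hE.congr (g := fun S => q * χ S), E_mul, hq, div_mul_cancel₀ _ hαpos.ne']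
        rintro S ⟨hSA, -⟩
        rw [coin_apply, ind_pos (mem_insert_self _ _), ind_neg (fun h => hv (hSA h))]
        ring
      · rw [hE.congr (g := fun S => ind (x ∈ S)), h1 x hxA]
        rintro S -
        have hxv : x ≠ v := fun h => hv (h ▸ hxA)
        rw [coin_apply, ind_congr (p := x ∈ insert v S) (q := x ∈ S) (by simp [hxv])]
        ring
    · have key : ∀ x, x ≠ v →
          bind E (fun S => coin (q * χ S) (insert v S) S) (fun S => ind (x ∈ S ∧ v ∈ S))
            ≤ r * (r / a) := by
        intro x hxv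
        rw [bind_apply]
        have h5 : E (fun S => coin (q * χ S) (insert v S) S (fun S => ind (x ∈ S ∧ v ∈ S)))
            ≤ E (fun S => q * ind (x ∈ S)) := by
          apply hE.mono
          rintro S ⟨hSA, -⟩
          rw [coin_apply, ind_neg (p := x ∈ S ∧ v ∈ S) (fun h => hv (hSA h.2)),
            ind_congr (p := x ∈ insert v S ∧ v ∈ insert v S) (q := x ∈ S) (by simp [hxv])]
          have := ind_nonneg (x ∈ S)
          have hχ1 : χ S ≤ 1 := ind_le_one _
          nlinarith [mul_nonneg hq0 this]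
        refine h5.trans ?_
        rw [E_mul]
        have h6 : E (fun S => ind (x ∈ S)) ≤ r := by
          by_cases hxA : x ∈ A
          · exact (h1 x hxA).le
          · rw [hE.congr (g := fun _ => 0) (fun S hS => ind_neg fun h => hxA (hS.1 h)), hE.const]
            exact hr
        calc q * E (fun S => ind (x ∈ S)) ≤ q * r := mul_le_mul_of_nonneg_left h6 hq0
          _ ≤ (r / a) * r := mul_le_mul_of_nonneg_right hqa hr
          _ = r * (r / a) := mul_comm _ _
      intro x y hxy
      by_cases hy : y = v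
      · subst hy
        exact key x hxy
      · by_cases hx : x = v
        · subst hx
          have := key y hy
          simpa only [and_comm] using this
        · rw [bind_apply, hE.congr (g := fun S => ind (x ∈ S ∧ y ∈ S))]
          · exact h2 x y hxy
          · rintro S -
            rw [coin_apply, ind_congr (p := x ∈ insert v S ∧ y ∈ insert v S)
              (q := x ∈ S ∧ y ∈ S) (by simp [hx, hy])]
            ring

end Sampler

end Pool.Agent.P.MP_cf7e4d_co
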