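import Pool.Agent.P.MP_cf7e4d_co.Sep

/-! Degeneracy ordering and the weighted form of the main theorem. -/

namespace Pool.Agent.P.MP_cf7e4d_co

open Finset

variable {V C : Type*}

lemma exists_order [Fintype V] [DecidableEq V] (G : SimpleGraph V) [DecidableRel G.Adj] (d : ℕ)
    (h : ∀ H : G.Subgraph, H.verts.Nonempty → ∃ v ∈ H.verts, (H.neighborSet v).ncard ≤ d) :
    ∃ ord : V → ℕ, Function.Injective ord ∧
      ∀ v, (univ.filter fun u => G.Adj v u ∧ ord u < ord v).card ≤ d := by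
  have key : ∀ n, ∀ s : Finset V, s.card = n → ∃ ord : V → ℕ, Set.InjOn ord s ∧
      (∀ v ∈ s, ord v < n) ∧ ∀ v ∈ s, (s.filter fun u => G.Adj v u ∧ ord u < ord v).card ≤ d := by
    intro n
    induction n with
    | zero =>
      intro s hs
      rw [card_eq_zero] at hs
      subst hs
      exact ⟨fun _ => 0, by simp, by simp, by simp⟩
    | succ n ih =>
      intro s hs
      have hne : s.Nonempty := card_pos.1 (by omega)
      obtain ⟨v, hv, hdeg⟩ := h ((⊤ : G.Subgraph).induce (s : Set V)) (by simpa using hne)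
      have hv : v ∈ s := by simpa using hv
      have hdeg' : (s.filter fun u => G.Adj v u).card ≤ d := by
        rw [← Set.ncard_coe_finset]
        convert hdeg using 2
        ext u
        simp [hv]
      obtain ⟨ord, hinj, hlt, hdeg2⟩ := ih (s.erase v) (by rw [card_erase_of_mem hv]; omega)
      have hup : ∀ u ∈ s.erase v, Function.update ord v n u = ord u :=
        fun u hu => Function.update_of_ne (mem_erase.1 hu).1 _ _
      refine ⟨Function.update ord v n, ?_, ?_, ?_⟩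
      · intro a ha b hb hab
        by_cases hav : a = v <;> by_cases hbv : b = v
        · rw [hav, hbv]
        · have hb' : b ∈ s.erase v := mem_erase.2 ⟨hbv, hb⟩
          rw [hav, Function.update_self, hup b hb'] at hab
          have := hlt b hb'
          omega
        · have ha' : a ∈ s.erase v := mem_erase.2 ⟨hav, ha⟩
          rw [hbv, Function.update_self, hup a ha'] at hab
          have := hlt a ha'
          omega
        · have ha' : a ∈ s.erase v := mem_erase.2 ⟨hav, ha⟩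
          have hb' : b ∈ s.erase v := mem_erase.2 ⟨hbv, hb⟩
          rw [hup a ha', hup b hb'] at hab
          exact hinj (mem_coe.2 ha') (mem_coe.2 hb') hab
      · intro a ha
        by_cases hav : a = v
        · rw [hav, Function.update_self]; omega
        · have ha' : a ∈ s.erase v := mem_erase.2 ⟨hav, ha⟩
          rw [hup a ha']
          have := hlt a ha'
          omega
      · intro a ha
        by_cases hav : a = v
        · subst hav
          exact le_trans (card_le_card fun u hu =>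
            mem_filter.2 ⟨(mem_filter.1 hu).1, (mem_filter.1 hu).2.1⟩) hdeg'
        · have ha' : a ∈ s.erase v := mem_erase.2 ⟨hav, ha⟩
          refine le_trans (card_le_card fun u hu => ?_) (hdeg2 a ha')
          obtain ⟨hus, hadj, hlt'⟩ := mem_filter.1 hu
          have huv : u ≠ v := by
            rintro rfl
            rw [Function.update_self, hup a ha'] at hlt'
            have := hlt a ha'
            omega
          have hu' : u ∈ s.erase v := mem_erase.2 ⟨huv, hus⟩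
          rw [hup u hu', hup a ha'] at hlt'
          exact mem_filter.2 ⟨hu', hadj, hlt'⟩
  obtain ⟨ord, h1, -, h2⟩ := key _ univ rfl
  exact ⟨ord, by simpa using h1, fun v => h2 v (mem_univ v)⟩

lemma eventually_params {α : ℝ} (hα : 7 / 8 < α) :
    ∃ d₀ : ℕ, ∀ d ≥ d₀, 1 ≤ d ∧ ∃ ζ : ℝ, 0 < ζ ∧ ζ ≤ 1 / 100 ∧
      144 * Real.log (2 * d + 2) ^ 2 ≤ ζ ^ 8 * d ∧ 100 * ζ * d ≤ (d : ℝ) ^ α ∧ 1 ≤ ζ * d := by
  set β : ℝ := min α 1 with hβ
  have hβ1 : β ≤ 1 := min_le_right _ _
  have hβ2 : 7 / 8 < β := lt_min hα (by norm_num)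
  set γ : ℝ := 8 * β - 7 with hγ
  have hγ0 : 0 < γ := by linarith
  have hγ1 : γ ≤ 1 := by linarith
  have hev := (tendsto_rpow_atTop (show 0 < γ / 2 by positivity)).comp
    tendsto_natCast_atTop_atTop |>.eventually_ge_atTop (100 ^ 8 * 144 * (16 / γ ^ 2) * 4)
  obtain ⟨d₀, hd₀⟩ := Filter.eventually_atTop.1 hev
  refine ⟨max d₀ 1, fun d hd => ?_⟩
  have hd1 : 1 ≤ d := le_of_max_le_right hd
  have hd' : (1 : ℝ) ≤ d := by exact_mod_cast hd1
  have hdpos : (0 : ℝ) < d := by linarith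
  have h1 : 100 ^ 8 * 144 * (16 / γ ^ 2) * 4 ≤ (d : ℝ) ^ (γ / 2) := hd₀ d (le_of_max_le_left hd)
  have hz : (d : ℝ) ^ (β - 1) ≤ 1 := Real.rpow_le_one_of_one_le_of_nonpos hd' (by linarith)
  have hzpos : 0 < (d : ℝ) ^ (β - 1) := Real.rpow_pos_of_pos hdpos _
  have h8 : ((d : ℝ) ^ (β - 1) / 100) ^ 8 * d = (d : ℝ) ^ (γ / 2) * (d : ℝ) ^ (γ / 2) / 100 ^ 8 := by
    rw [div_pow, ← Real.rpow_add hdpos, ← Real.rpow_natCast, ← Real.rpow_mul hdpos.le,
      div_mul_eq_mul_div, ← Real.rpow_add_one hdpos.ne']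
    congr 2
    push_cast
    linarith
  have hlog : Real.log (2 * d + 2) ^ 2 ≤ (16 / γ ^ 2) * 4 * (d : ℝ) ^ (γ / 2) := by
    have a1 : Real.log (2 * d + 2) ≤ (2 * d + 2 : ℝ) ^ (γ / 4) / (γ / 4) :=
      Real.log_le_rpow_div (by positivity) (by positivity)
    have a2 : 0 ≤ Real.log (2 * d + 2) := Real.log_nonneg (by linarith)
    have a3 : (2 * d + 2 : ℝ) ^ (γ / 2) ≤ 4 * (d : ℝ) ^ (γ / 2) := by
      calc (2 * d + 2 : ℝ) ^ (γ / 2) ≤ (4 * d : ℝ) ^ (γ / 2) :=
            Real.rpow_le_rpow (by positivity) (by linarith) (by positivity)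
        _ = (4 : ℝ) ^ (γ / 2) * (d : ℝ) ^ (γ / 2) := Real.mul_rpow (by norm_num) hdpos.le
        _ ≤ 4 * (d : ℝ) ^ (γ / 2) := by
            apply mul_le_mul_of_nonneg_right _ (by positivity)
            calc (4 : ℝ) ^ (γ / 2) ≤ 4 ^ (1 : ℝ) :=
                  Real.rpow_le_rpow_of_exponent_le (by norm_num) (by linarith)
              _ = 4 := Real.rpow_one _
    calc Real.log (2 * d + 2) ^ 2 ≤ ((2 * d + 2 : ℝ) ^ (γ / 4) / (γ / 4)) ^ 2 :=
          pow_le_pow_left₀ a2 a1 2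
      _ = (16 / γ ^ 2) * (2 * d + 2 : ℝ) ^ (γ / 2) := by
          rw [div_pow, ← Real.rpow_natCast, ← Real.rpow_mul (by positivity)]
          have : γ / 4 * ((2 : ℕ) : ℝ) = γ / 2 := by push_cast; ring
          rw [this]
          field_simp
          norm_num
      _ ≤ (16 / γ ^ 2) * (4 * (d : ℝ) ^ (γ / 2)) := by gcongr
      _ = _ := by ring
  have hmain : 144 * Real.log (2 * d + 2) ^ 2 ≤ ((d : ℝ) ^ (β - 1) / 100) ^ 8 * d := by
    rw [h8, le_div_iff₀ (by positivity)]
    have hp : 0 < (d : ℝ) ^ (γ / 2) := Real.rpow_pos_of_pos hdpos _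
    nlinarith [mul_le_mul_of_nonneg_right h1 hp.le]
  refine ⟨hd1, (d : ℝ) ^ (β - 1) / 100, by positivity, by linarith, hmain, ?_, ?_⟩
  · have : 100 * ((d : ℝ) ^ (β - 1) / 100) * d = (d : ℝ) ^ β := by
      rw [mul_div_cancel₀ _ (by norm_num), ← Real.rpow_add_one hdpos.ne']
      congr 1
      ring
    rw [this]
    exact Real.rpow_le_rpow_of_exponent_le hd' (min_le_left _ _)
  · have hl : 1 ≤ Real.log (2 * d + 2) := by
      rw [Real.le_log_iff_exp_le (by linarith)]
      linarith [Real.exp_one_lt_d9]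
    have : ((d : ℝ) ^ (β - 1) / 100) ^ 8 ≤ ((d : ℝ) ^ (β - 1) / 100) ^ 1 :=
      pow_le_pow_of_le_one (by positivity) (by linarith) (by norm_num)
    nlinarith

theorem weighted {α : ℝ} (hα : 7 / 8 < α) : ∃ d₀ : ℕ, ∀ d ≥ d₀, ∀ K : ℕ,
    (d : ℝ) + (d : ℝ) ^ α ≤ K → 0 < K ∧
    ∀ (V C : Type) [Fintype V] [DecidableEq V] [DecidableEq C] (G : SimpleGraph V)
      [DecidableRel G.Adj],
      (∀ H : G.Subgraph, H.verts.Nonempty → ∃ v ∈ H.verts, (H.neighborSet v).ncard ≤ d) →
      ∀ L : V → Finset C, (∀ v, (L v).card = K) →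
      ∃ w : (V → C) → ℝ, (∀ c, 0 ≤ w c) ∧
        ∑ c ∈ (Fintype.piFinset L).filter (fun c => ∀ u v, G.Adj u v → c u ≠ c v), w c = 1 ∧
        ∀ v, ∀ y ∈ L v, ∑ c ∈ (Fintype.piFinset L).filter (fun c => ∀ u v, G.Adj u v → c u ≠ c v),
          w c * ind (c v = y) = 1 / K := by
  obtain ⟨d₀, hd₀⟩ := eventually_params hα
  refine ⟨d₀, fun d hd K hK => ?_⟩
  obtain ⟨hd1, ζ, h0, h1, H, hζd, hζ1⟩ := hd₀ d hd
  obtain ⟨R, k, hk2, ht, hdk, hk1, herr⟩ := params h0 h1 H hd1
  have hd' : (1 : ℝ) ≤ d := by exact_mod_cast hd1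
  have h61 : 0 < 1 - 6 * ζ := by linarith
  have hKpos : (0 : ℝ) < K := by
    have := Real.rpow_pos_of_pos (show (0 : ℝ) < d by linarith) α
    linarith
  have hkK : (k : ℝ) ≤ (1 - 6 * ζ) * K := by
    have a1 : (d : ℝ) / (1 - 6 * ζ) ≤ d + 7 * (ζ * d) := by
      rw [div_le_iff₀ h61]
      nlinarith
    have a2 : (d : ℝ) + 100 * (ζ * d) ≤ K := by linarith
    have a3 := mul_le_mul_of_nonneg_left a2 h61.le
    nlinarith
  have hkpos : (0 : ℝ) < k := by nlinarith
  refine ⟨by exact_mod_cast hKpos, ?_⟩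
  intro V C _ _ _ G _ hG L hL
  obtain ⟨ord, hinj, hdeg⟩ := exists_order G d hG
  apply exact_of_approx _ L hL (k := k) (by exact_mod_cast hkpos)
  · have : (k : ℝ) ≤ K := by nlinarith
    exact_mod_cast this
  intro L' hL'
  obtain ⟨E, hE, hm⟩ := core (fun v => univ.filter fun u => G.Adj v u ∧ ord u < ord v) ord
    (fun v u hu => (mem_filter.1 hu).2.2) L' hdeg hL' h0 (by linarith) ht hdk hk1 herr
  refine ⟨E, ⟨hE.one, fun f hf => hE.nonneg f fun c hc => hf c ⟨fun v => (hc v).1, ?_⟩⟩, ?_⟩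
  · intro u v huv
    rcases lt_trichotomy (ord u) (ord v) with h | h | h
    · exact (hc v).2 u (mem_filter.2 ⟨mem_univ _, huv.symm, h⟩)
    · exact absurd (hinj h) huv.ne
    · exact ((hc u).2 v (mem_filter.2 ⟨mem_univ _, huv, h⟩)).symm
  · intro v y hy
    refine le_trans ?_ (hm v y hy)
    rw [div_le_div_iff₀ hKpos hkpos]
    linarith

end Pool.Agent.P.MP_cf7e4d_co
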