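import Pool.Agent.P.MP_cf7e4d_co.Ex

/-! The colour-by-colour random process producing a tentative colouring. -/

namespace Pool.Agent.P.MP_cf7e4d_co

open Finset

lemma exp_neg_le_quad {t : ℝ} (ht : 0 ≤ t) : Real.exp (-t) ≤ 1 - t + t ^ 2 / 2 := by
  have h := Real.quadratic_le_exp_of_nonneg ht
  have hpos : 0 < 1 + t + t ^ 2 / 2 := by positivity
  rw [Real.exp_neg]
  calc (Real.exp t)⁻¹ ≤ (1 + t + t ^ 2 / 2)⁻¹ := inv_anti₀ hpos h
    _ ≤ 1 - t + t ^ 2 / 2 := by
      rw [inv_le_iff_one_le_mul₀ hpos]
      nlinarith [sq_nonneg (t ^ 2)]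

variable {V C : Type*}

/-- `u` has no tentative colour of label below `i`. -/
def late (ℓ : C → ℕ) (ψ : V → Option C) (i : ℕ) (u : V) : Prop := ∀ x, ψ u = some x → i ≤ ℓ x

/-- Number of vertices of `N` with no tentative colour of label below `i`. -/
noncomputable def cnt (ℓ : C → ℕ) (ψ : V → Option C) (i : ℕ) (N : Finset V) : ℝ :=
  ∑ u ∈ N, ind (late ℓ ψ i u)

/-- The almost sure property of the tentative colouring. -/
def Supp (B : V → Finset V) (L : V → Finset C) (ℓ : C → ℕ) (D : ℕ → ℝ) (Y : Finset C)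
    (ψ : V → Option C) : Prop :=
  ∀ v x, ψ v = some x → x ∈ Y ∧ x ∈ L v ∧
    (cnt ℓ ψ (ℓ x) (B v) ≤ D (ℓ x) → ∀ u ∈ B v, ψ u ≠ some x)

/-- Exponential moment for one step of the process. -/
lemma step_moment [DecidableEq V] {P : Finset V → Prop} {E : (Finset V → ℝ) →ₗ[ℝ] ℝ}
    (hE : IsEx P E) (A N : Finset V) (hP : ∀ S, P S → S ⊆ A) {r q lam : ℝ} (hr : 0 ≤ r)
    (hq : 0 ≤ q) (hlam : 0 ≤ lam)
    (h1 : ∀ v ∈ A, E (fun S => ind (v ∈ S)) = r)
    (h2 : ∀ u v, u ≠ v → E (fun S => ind (u ∈ S ∧ v ∈ S)) ≤ r * q)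
    (w : V → ℝ) (hw0 : ∀ u, 0 ≤ w u) (hw1 : ∀ u, w u ≤ 1) :
    E (fun S => Real.exp (-(lam * ∑ u ∈ N, w u * ind (u ∈ S)))) ≤
      Real.exp (-(lam * ∑ u ∈ N, w u * (ind (u ∈ A) * r)) +
        lam ^ 2 / 2 * ((∑ u ∈ N, ind (u ∈ A)) * (r * (1 + N.card * q)))) := by
  have hA : ∀ u, E (fun S => ind (u ∈ S)) = ind (u ∈ A) * r := by
    intro u
    by_cases hu : u ∈ A
    · rw [h1 u hu, ind_pos hu, one_mul]
    · rw [hE.congr (g := fun _ => 0) (fun S hS => ind_neg fun h => hu (hP S hS h)), hE.const,
        ind_neg hu, zero_mul]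
  have hX : E (fun S => ∑ u ∈ N, w u * ind (u ∈ S)) = ∑ u ∈ N, w u * (ind (u ∈ A) * r) := by
    rw [E_sum]
    exact sum_congr rfl fun u _ => by rw [E_mul, hA]
  have hpair : ∀ u v, E (fun S => ind (u ∈ S ∧ v ∈ S)) ≤
      ind (u ∈ A) * (r * (ind (v = u) + q)) := by
    intro u v
    by_cases hu : u ∈ A
    · rw [ind_pos hu, one_mul]
      by_cases huv : v = u
      · subst huv
        simp only [and_self]
        rw [h1 v hu, ind_pos trivial]
        nlinarith [mul_nonneg hr hq]
      · rw [ind_neg huv, zero_add]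
        exact h2 u v (Ne.symm huv)
    · rw [hE.congr (g := fun _ => 0) (fun S hS => ind_neg fun h => hu (hP S hS h.1)), hE.const,
        ind_neg hu, zero_mul]
  have hX2 : E (fun S => (∑ u ∈ N, w u * ind (u ∈ S)) ^ 2) ≤
      (∑ u ∈ N, ind (u ∈ A)) * (r * (1 + N.card * q)) := by
    have h3 : E (fun S => (∑ u ∈ N, w u * ind (u ∈ S)) ^ 2) ≤
        E (fun S => ∑ u ∈ N, ∑ v ∈ N, ind (u ∈ S ∧ v ∈ S)) := by
      apply hE.mono
      intro S _
      rw [sq, sum_mul_sum]
      refine sum_le_sum fun u _ => sum_le_sum fun v _ => ?_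
      rw [ind_and]
      have a1 := ind_nonneg (u ∈ S)
      have a2 := ind_nonneg (v ∈ S)
      apply mul_le_mul
      · nlinarith [hw1 u]
      · nlinarith [hw1 v]
      · exact mul_nonneg (hw0 v) a2
      · exact a1
    refine h3.trans ?_
    rw [E_sum, sum_mul]
    refine sum_le_sum fun u hu => ?_
    rw [E_sum]
    calc ∑ v ∈ N, E (fun S => ind (u ∈ S ∧ v ∈ S))
        ≤ ∑ v ∈ N, ind (u ∈ A) * (r * (ind (v = u) + q)) := sum_le_sum fun v _ => hpair u v
      _ = ind (u ∈ A) * (r * (1 + N.card * q)) := by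
        rw [← mul_sum, ← mul_sum, sum_add_distrib]
        congr 3
        · rw [sum_eq_single u]
          · exact ind_pos rfl
          · intro b _ hb
            exact ind_neg hb
          · intro h
            exact absurd hu h
        · simp
  have h4 : E (fun S => Real.exp (-(lam * ∑ u ∈ N, w u * ind (u ∈ S)))) ≤
      E (fun S => (1 - lam * ∑ u ∈ N, w u * ind (u ∈ S)) +
        lam ^ 2 / 2 * (∑ u ∈ N, w u * ind (u ∈ S)) ^ 2) := by
    apply hE.mono
    intro S _
    have : 0 ≤ lam * ∑ u ∈ N, w u * ind (u ∈ S) :=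
      mul_nonneg hlam (sum_nonneg fun u _ => mul_nonneg (hw0 u) (ind_nonneg _))
    refine (exp_neg_le_quad this).trans (le_of_eq ?_)
    ring
  rw [E_add, E_sub, E_mul, E_mul, hE.one, hX] at h4
  refine h4.trans (le_trans ?_ (Real.add_one_le_exp _))
  have : lam ^ 2 / 2 * E (fun S => (∑ u ∈ N, w u * ind (u ∈ S)) ^ 2) ≤
      lam ^ 2 / 2 * ((∑ u ∈ N, ind (u ∈ A)) * (r * (1 + N.card * q))) :=
    mul_le_mul_of_nonneg_left hX2 (by positivity)
  linarith

theorem process [Fintype V] [DecidableEq V] [DecidableEq C]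
    (B : V → Finset V) (ord : V → ℕ) (hB : ∀ v, ∀ u ∈ B v, ord u < ord v)
    (L : V → Finset C) (ℓ : C → ℕ) (r D : ℕ → ℝ) {a κ : ℝ} {d : ℕ}
    (hr : ∀ i, 0 ≤ r i) (ha : 0 < a) (hra : ∀ i, r i ≤ a) (ha1 : a ≤ 1)
    (hD : ∀ i, D i * r i ≤ 1 - a) (hκ : ∀ i, r i * (1 + d * (r i / a)) ≤ κ) (Y : Finset C) :
    ∃ E : ((V → Option C) → ℝ) →ₗ[ℝ] ℝ, IsEx (Supp B L ℓ D Y) E ∧
      (∀ v, E (fun ψ => ind (ψ v = none)) = ∏ x ∈ Y, (1 - ind (x ∈ L v) * r (ℓ x))) ∧
      (∀ v, ∀ x ∈ Y, x ∈ L v →
        r (ℓ x) * ∏ x' ∈ Y.erase x, (1 - ind (x' ∈ L v ∧ ℓ x' ≤ ℓ x) * r (ℓ x')) ≤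
          E (fun ψ => ind (ψ v = some x))) ∧
      (∀ (N : Finset V), N.card ≤ d → ∀ (i : ℕ) (lam : ℝ), 0 ≤ lam →
        ∀ w : V → ℝ, (∀ u, 0 ≤ w u) → (∀ u, w u ≤ 1) →
        E (fun ψ => Real.exp (lam * ∑ u ∈ N, w u * ind (late ℓ ψ i u))) ≤
          Real.exp (lam * (∑ u ∈ N, w u * ∏ x ∈ Y, (1 - ind (x ∈ L u ∧ ℓ x < i) * r (ℓ x))) +
            lam ^ 2 / 2 * ((∑ x ∈ Y, ∑ u ∈ N, ind (x ∈ L u)) * κ))) := by
  have hr1 : ∀ i, r i ≤ 1 := fun i => (hra i).trans ha1
  have hκ0 : 0 ≤ κ := le_trans (by have := hr 0; positivity) (hκ 0)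
  have hfac0 : ∀ (p : Prop) i, 0 ≤ 1 - ind p * r i := by
    intro p i
    nlinarith [ind_le_one p, ind_nonneg p, hr i, hr1 i]
  have hfac1 : ∀ (p : Prop) i, 1 - ind p * r i ≤ 1 := by
    intro p i
    nlinarith [ind_nonneg p, hr i]
  induction Y using Finset.induction_on_max_value ℓ with
  | empty =>
    refine ⟨LinearMap.proj (fun _ => none), dirac_isEx _ (by simp [Supp]), ?_, by simp, ?_⟩
    · intro v
      simp [ind_pos]
    · intro N _ i lam _ w _ _
      simp only [LinearMap.coe_proj, Function.eval, prod_empty, sum_empty, zero_mul, mul_zero,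
        add_zero]
      apply le_of_eq
      congr 2
      refine sum_congr rfl fun u _ => ?_
      rw [ind_pos]
      intro x hx
      simp at hx
  | insert y Y hy hmax ih =>
    obtain ⟨E, hE, hb, hc, hd⟩ := ih
    choose F hF hF1 hF2 using fun ψ : V → Option C =>
      sampler B ord hB (hr (ℓ y)) ha (hra (ℓ y)) ha1 (hD (ℓ y))
        (univ.filter fun v => ψ v = none ∧ y ∈ L v)
    set upd : (V → Option C) → Finset V → V → Option C :=
      fun ψ S v => if v ∈ S then some y else ψ v with hupd
    have hlate : ∀ ψ S, S ⊆ (univ.filter fun v => ψ v = none ∧ y ∈ L v) → ∀ i, i ≤ ℓ y → ∀ u,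
        late ℓ (upd ψ S) i u ↔ late ℓ ψ i u := by
      intro ψ S hS i hi u
      by_cases hu : u ∈ S
      · have h0 := (mem_filter.1 (hS hu)).2.1
        simp only [late, hupd, hu, if_true, h0]
        constructor
        · intro _ x hx
          simp at hx
        · intro _ x hx
          simp only [Option.some.injEq] at hx
          rw [← hx]; exact hi
      · simp only [late, hupd, hu, if_false]
    have hA : ∀ ψ u, F ψ (fun S => ind (u ∈ S)) = ind (ψ u = none ∧ y ∈ L u) * r (ℓ y) := by
      intro ψ u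
      by_cases hu : ψ u = none ∧ y ∈ L u
      · rw [hF1 ψ u (by simpa using hu), ind_pos hu, one_mul]
      · rw [(hF ψ).congr (g := fun _ => 0)
          (fun S hS => ind_neg fun h => hu (by simpa using hS.1 h)), (hF ψ).const,
          ind_neg hu, zero_mul]
    refine ⟨bind E (fun ψ => push (F ψ) (upd ψ)), hE.bind ?_, ?_, ?_, ?_⟩
    · intro ψ hψ
      apply (hF ψ).push
      rintro S ⟨hSA, hS⟩ v x hvx
      by_cases hv : v ∈ S
      · have hxy : x = y := by simpa [hupd, hv] using hvx.symm
        subst hxy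
        have hvA := (mem_filter.1 (hSA hv)).2
        refine ⟨mem_insert_self _ _, hvA.2, ?_⟩
        intro hcnt u hu
        have hcard : ((B v ∩ univ.filter fun v => ψ v = none ∧ x ∈ L v).card : ℝ) ≤ D (ℓ x) := by
          refine le_trans ?_ hcnt
          rw [cnt, card_eq_sum_ones, Nat.cast_sum]
          calc ∑ u ∈ B v ∩ univ.filter fun v => ψ v = none ∧ x ∈ L v, ((1 : ℕ) : ℝ)
              = ∑ u ∈ B v ∩ univ.filter fun v => ψ v = none ∧ x ∈ L v,
                ind (late ℓ (upd ψ S) (ℓ x) u) := by
                refine sum_congr rfl fun u hu => ?_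
                rw [ind_pos, Nat.cast_one]
                rw [hlate ψ S hSA _ le_rfl]
                intro z hz
                rw [(mem_filter.1 (mem_inter.1 hu).2).2.1] at hz
                simp at hz
            _ ≤ _ := sum_le_sum_of_subset_of_nonneg inter_subset_left fun _ _ _ => ind_nonneg _
        have huS := hS v hv hcard u hu
        simp only [hupd, huS, if_false]
        intro h
        exact hy (hψ u x h).1
      · have hvx' : ψ v = some x := by simpa [hupd, hv] using hvx
        obtain ⟨hxY, hxL, hno⟩ := hψ v x hvx'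
        refine ⟨mem_insert_of_mem hxY, hxL, ?_⟩
        intro hcnt u hu
        have : cnt ℓ (upd ψ S) (ℓ x) (B v) = cnt ℓ ψ (ℓ x) (B v) :=
          sum_congr rfl fun u _ => ind_congr (hlate ψ S hSA _ (hmax x hxY) u)
        rw [this] at hcnt
        by_cases huS : u ∈ S
        · simp only [hupd, huS, if_true]
          intro h
          simp only [Option.some.injEq] at h
          exact hy (h ▸ hxY)
        · simp only [hupd, huS, if_false]
          exact hno hcnt u hu
    · intro v
      rw [bind_apply, prod_insert hy, ← hb v, ← E_mul]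
      apply hE.congr
      intro ψ _
      rw [push_apply, (hF ψ).congr (g := fun S => ind (ψ v = none) - ind (v ∈ S)), E_sub,
        (hF ψ).const, hA, ind_and]
      · ring
      · rintro S ⟨hSA, -⟩
        by_cases hv : v ∈ S
        · rw [ind_pos hv, ind_pos (mem_filter.1 (hSA hv)).2.1, ind_neg (by simp [hupd, hv])]
          ring
        · rw [ind_neg hv]
          simp [hupd, hv]
    · intro v x hx hxL
      rw [bind_apply]
      rcases mem_insert.1 hx with rfl | hxY
      · rw [erase_insert hy]
        have : ∏ x' ∈ Y, (1 - ind (x' ∈ L v ∧ ℓ x' ≤ ℓ x) * r (ℓ x')) =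
            ∏ x' ∈ Y, (1 - ind (x' ∈ L v) * r (ℓ x')) :=
          prod_congr rfl fun x' hx' => by rw [ind_congr (and_iff_left (hmax x' hx'))]
        rw [this, ← hb v, ← E_mul]
        apply hE.mono
        intro ψ hψ
        rw [push_apply, (hF ψ).congr (g := fun S => ind (v ∈ S)), hA, ind_congr (and_iff_left hxL),
          mul_comm]
        rintro S -
        apply ind_congr
        by_cases hv : v ∈ S
        · simp [hupd, hv]
        · simp only [hupd, hv, if_false, iff_false]
          intro h
          exact hy (hψ v x h).1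
      · have hxy : x ≠ y := fun h => hy (h ▸ hxY)
        have h5 : E (fun ψ => push (F ψ) (upd ψ) (fun ψ => ind (ψ v = some x))) =
            E (fun ψ => ind (ψ v = some x)) := by
          apply hE.congr
          intro ψ _
          rw [push_apply, (hF ψ).congr (g := fun _ => ind (ψ v = some x)), (hF ψ).const]
          rintro S ⟨hSA, -⟩
          apply ind_congr
          by_cases hv : v ∈ S
          · simp [hupd, hv, (mem_filter.1 (hSA hv)).2.1, hxy.symm]
          · simp [hupd, hv]
        rw [h5]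
        refine le_trans ?_ (hc v x hxY hxL)
        apply mul_le_mul_of_nonneg_left _ (hr _)
        rw [erase_insert_of_ne hxy.symm, prod_insert (fun h => hy (mem_of_mem_erase h))]
        exact mul_le_of_le_one_left (prod_nonneg fun _ _ => hfac0 _ _) (hfac1 _ _)
    · intro N hN i lam hlam w hw0 hw1
      rw [bind_apply, sum_insert hy]
      have hv0 : 0 ≤ ∑ u ∈ N, ind (y ∈ L u) := sum_nonneg fun _ _ => ind_nonneg _
      by_cases hi : i ≤ ℓ y
      · have h6 : E (fun ψ => push (F ψ) (upd ψ)
            (fun ψ => Real.exp (lam * ∑ u ∈ N, w u * ind (late ℓ ψ i u)))) =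
            E (fun ψ => Real.exp (lam * ∑ u ∈ N, w u * ind (late ℓ ψ i u))) := by
          apply hE.congr
          intro ψ _
          rw [push_apply, (hF ψ).congr
            (g := fun _ => Real.exp (lam * ∑ u ∈ N, w u * ind (late ℓ ψ i u))), (hF ψ).const]
          rintro S ⟨hSA, -⟩
          congr 2
          exact sum_congr rfl fun u _ => by rw [ind_congr (hlate ψ S hSA i hi u)]
        rw [h6]
        refine (hd N hN i lam hlam w hw0 hw1).trans (Real.exp_le_exp.2 ?_)
        have h7 : ∀ u, ∏ x ∈ insert y Y, (1 - ind (x ∈ L u ∧ ℓ x < i) * r (ℓ x)) =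
            ∏ x ∈ Y, (1 - ind (x ∈ L u ∧ ℓ x < i) * r (ℓ x)) := by
          intro u
          rw [prod_insert hy, ind_neg (fun h => absurd h.2 (by omega))]
          ring
        simp only [h7]
        have : 0 ≤ lam ^ 2 / 2 * ((∑ u ∈ N, ind (y ∈ L u)) * κ) := by positivity
        nlinarith
      · push Not at hi
        set w' : V → ℝ := fun u => w u * (1 - ind (y ∈ L u) * r (ℓ y)) with hw'
        have h8 : E (fun ψ => push (F ψ) (upd ψ)
            (fun ψ => Real.exp (lam * ∑ u ∈ N, w u * ind (late ℓ ψ i u)))) ≤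
            E (fun ψ => Real.exp (lam ^ 2 / 2 * ((∑ u ∈ N, ind (y ∈ L u)) * κ)) *
              Real.exp (lam * ∑ u ∈ N, w' u * ind (late ℓ ψ i u))) := by
          apply hE.mono
          intro ψ hψ
          have hl : ∀ u, late ℓ ψ i u ↔ ψ u = none := by
            intro u
            constructor
            · intro h
              cases hu : ψ u with
              | none => rfl
              | some x =>
                have := h x hu
                have := hmax x (hψ u x hu).1
                omega
            · intro h x hx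
              rw [h] at hx
              simp at hx
          rw [push_apply, (hF ψ).congr (g := fun S =>
            Real.exp (lam * ∑ u ∈ N, w u * ind (ψ u = none)) *
              Real.exp (-(lam * ∑ u ∈ N, w u * ind (u ∈ S)))), E_mul]
          · have h9 := step_moment (hF ψ) (univ.filter fun v => ψ v = none ∧ y ∈ L v) N
              (fun S hS => hS.1) (hr (ℓ y)) (div_nonneg (hr (ℓ y)) ha.le) hlam (hF1 ψ) (hF2 ψ)
              w hw0 hw1
            refine (mul_le_mul_of_nonneg_left h9 (Real.exp_pos _).le).trans ?_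
            rw [← Real.exp_add, ← Real.exp_add]
            apply Real.exp_le_exp.2
            have h10 : ∑ u ∈ N, w' u * ind (late ℓ ψ i u) = ∑ u ∈ N, w u * ind (ψ u = none) -
                ∑ u ∈ N, w u * (ind (u ∈ univ.filter fun v => ψ v = none ∧ y ∈ L v) *
                  r (ℓ y)) := by
              rw [← sum_sub_distrib]
              refine sum_congr rfl fun u _ => ?_
              rw [ind_congr (hl u), ind_congr (p := u ∈ univ.filter fun v => ψ v = none ∧ y ∈ L v)
                (q := ψ u = none ∧ y ∈ L u) (by simp), ind_and]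
              simp only [hw']
              ring
            have h11 : (∑ u ∈ N, ind (u ∈ univ.filter fun v => ψ v = none ∧ y ∈ L v)) *
                (r (ℓ y) * (1 + N.card * (r (ℓ y) / a))) ≤ (∑ u ∈ N, ind (y ∈ L u)) * κ := by
              apply mul_le_mul
              · exact sum_le_sum fun u _ => ind_mono fun h => (mem_filter.1 h).2.2
              · refine le_trans ?_ (hκ (ℓ y))
                apply mul_le_mul_of_nonneg_left _ (hr _)
                have : (N.card : ℝ) ≤ d := by exact_mod_cast hN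
                have h12 : 0 ≤ r (ℓ y) / a := div_nonneg (hr _) ha.le
                nlinarith
              · have := hr (ℓ y)
                positivity
              · exact hv0
            rw [h10]
            have := mul_le_mul_of_nonneg_left h11 (show 0 ≤ lam ^ 2 / 2 by positivity)
            linarith
          · rintro S ⟨hSA, -⟩
            rw [← Real.exp_add]
            congr 1
            rw [← sub_eq_add_neg, ← mul_sub, ← sum_sub_distrib]
            congr 1
            refine sum_congr rfl fun u _ => ?_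
            by_cases hu : u ∈ S
            · rw [ind_pos hu, ind_pos (mem_filter.1 (hSA hu)).2.1, ind_neg]
              · ring
              · intro h
                have := h y (by simp [hupd, hu])
                omega
            · rw [ind_neg hu, ← ind_congr (hl u)]
              have : late ℓ (upd ψ S) i u ↔ late ℓ ψ i u := by simp [late, hupd, hu]
              rw [ind_congr this]
              ring
        refine h8.trans ?_
        rw [E_mul]
        have h13 := hd N hN i lam hlam w' (fun u => mul_nonneg (hw0 u) (hfac0 _ _))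
          (fun u => mul_le_one₀ (hw1 u) (hfac0 _ _) (hfac1 _ _))
        refine (mul_le_mul_of_nonneg_left h13 (Real.exp_pos _).le).trans (le_of_eq ?_)
        rw [← Real.exp_add]
        congr 1
        have h14 : ∑ u ∈ N, w u * ∏ x ∈ insert y Y, (1 - ind (x ∈ L u ∧ ℓ x < i) * r (ℓ x)) =
            ∑ u ∈ N, w' u * ∏ x ∈ Y, (1 - ind (x ∈ L u ∧ ℓ x < i) * r (ℓ x)) := by
          refine sum_congr rfl fun u _ => ?_
          rw [prod_insert hy, ind_congr (and_iff_left hi)]
          simp only [hw']
          ring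
        rw [h14]
        ring

end Pool.Agent.P.MP_cf7e4d_co
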