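import Pool.Agent.P.MP_cf7e4d_co.Tails

/-! From almost uniform marginals on sublists to exactly uniform marginals; parameters. -/

namespace Pool.Agent.P.MP_cf7e4d_co

open Finset

variable {V C : Type*}

lemma exists_top [DecidableEq C] (s : Finset C) (w : C → ℝ) (n : ℕ) (hn : n ≤ s.card) :
    ∃ t ⊆ s, t.card = n ∧ ∀ x ∈ t, ∀ y ∈ s, y ∉ t → w y ≤ w x := by
  induction n with
  | zero => exact ⟨∅, empty_subset _, rfl, by simp⟩
  | succ n ih =>
    obtain ⟨t, hts, hc, ht⟩ := ih (by omega)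
    have hne : (s \ t).Nonempty := by
      rw [sdiff_nonempty]
      intro h
      have := card_le_card h
      omega
    obtain ⟨z, hz, hmax⟩ := exists_max_image _ w hne
    rw [mem_sdiff] at hz
    refine ⟨insert z t, insert_subset hz.1 hts, by rw [card_insert_of_notMem hz.2, hc], ?_⟩
    intro x hx y hy hyt
    rw [mem_insert, not_or] at hyt
    rcases mem_insert.1 hx with rfl | hx
    · exact hmax y (mem_sdiff.2 ⟨hy, hyt.2⟩)
    · exact ht x hx y hy hyt.2

theorem exact_of_approx [Fintype V] [DecidableEq V] [DecidableEq C] (ok : (V → C) → Prop)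
    [DecidablePred ok] (L : V → Finset C) {K k : ℕ} (hL : ∀ v, (L v).card = K) (hk0 : 0 < k)
    (hk : k ≤ K)
    (h : ∀ L' : V → Finset C, (∀ v, (L' v).card = k) →
      ∃ E : ((V → C) → ℝ) →ₗ[ℝ] ℝ, IsEx (fun c => (∀ v, c v ∈ L' v) ∧ ok c) E ∧
        ∀ v, ∀ y ∈ L' v, (1 : ℝ) / K ≤ E (fun c => ind (c v = y))) :
    ∃ w : (V → C) → ℝ, (∀ c, 0 ≤ w c) ∧ ∑ c ∈ (Fintype.piFinset L).filter ok, w c = 1 ∧
      ∀ v, ∀ y ∈ L v, ∑ c ∈ (Fintype.piFinset L).filter ok, w c * ind (c v = y) = 1 / K := by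
  classical
  have hK : (0 : ℝ) < K := by exact_mod_cast lt_of_lt_of_le hk0 hk
  set S := (Fintype.piFinset L).filter ok with hS
  set χ : (V → C) → (V × C → ℝ) := fun c => ∑ v, Pi.single (v, c v) 1 with hχ
  have hχa : ∀ c v y, χ c (v, y) = ind (c v = y) := by
    intro c v y
    simp only [hχ, Finset.sum_apply]
    rw [sum_eq_single v]
    · by_cases hc : c v = y
      · rw [ind_pos hc, hc, Pi.single_eq_same]
      · rw [ind_neg hc, Pi.single_eq_of_ne (by simpa using Ne.symm hc)]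
    · intro b _ hb
      rw [Pi.single_eq_of_ne (by simp [Ne.symm hb])]
    · simp
  have hχinj : Function.Injective χ := by
    intro c c' hcc
    funext v
    have h1 := hχa c v (c' v)
    rw [hcc, hχa, ind_pos rfl] at h1
    by_contra hne
    rw [ind_neg hne] at h1
    exact one_ne_zero h1
  set x0 : V × C → ℝ := ∑ v, ∑ y ∈ L v, ((1 : ℝ) / K) • Pi.single (v, y) 1 with hx0
  have hx0a : ∀ v, ∀ y ∈ L v, x0 (v, y) = 1 / K := by
    intro v y hy
    simp only [hx0, Finset.sum_apply, Pi.smul_apply]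
    rw [sum_eq_single v, sum_eq_single y]
    · simp
    · intro b _ hb
      rw [Pi.single_eq_of_ne (by simp [Ne.symm hb])]; simp
    · intro h; exact absurd hy h
    · intro b _ hb
      apply sum_eq_zero
      intro z _
      rw [Pi.single_eq_of_ne (by simp [Ne.symm hb])]; simp
    · simp
  have hmem : x0 ∈ convexHull ℝ (↑(S.image χ) : Set (V × C → ℝ)) := by
    by_contra hnot
    obtain ⟨f, u, hf, hu⟩ := geometric_hahn_banach_closed_point (convex_convexHull ℝ _)
      ((S.image χ).finite_toSet.isClosed_convexHull ℝ) hnot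
    set w : V → C → ℝ := fun v y => f (Pi.single (v, y) 1) with hw
    have hfχ : ∀ c, f (χ c) = ∑ v, w v (c v) := fun c => by simp only [hχ, map_sum, hw]
    have hfx : f x0 = ∑ v, ∑ y ∈ L v, (1 : ℝ) / K * w v y := by
      simp only [hx0, map_sum, map_smul, hw, smul_eq_mul]
    choose L' hsub hcard htop using fun v => exists_top (L v) (w v) k (by rw [hL]; exact hk)
    obtain ⟨E, hE, hmarg⟩ := h L' hcard
    have h1 : E (fun c => ∑ v, w v (c v)) ≤ u := by
      apply hE.le_const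
      rintro c ⟨hc, hok⟩
      rw [← hfχ]
      refine (hf _ (subset_convexHull ℝ _ ?_)).le
      rw [coe_image]
      refine ⟨c, ?_, rfl⟩
      simp only [hS, coe_filter, Fintype.mem_piFinset, Set.mem_setOf_eq]
      exact ⟨fun v => hsub v (hc v), hok⟩
    have h2 : ∀ v, ∑ y ∈ L v, (1 : ℝ) / K * w v y ≤ E (fun c => w v (c v)) := by
      intro v
      obtain ⟨m, hm, hmin⟩ := exists_min_image (L' v) (w v) (card_pos.1 (by rw [hcard]; exact hk0))
      have h3 : E (fun c => w v (c v)) =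
          E (fun c => w v m + ∑ y ∈ L' v, (w v y - w v m) * ind (c v = y)) := by
        apply hE.congr
        rintro c ⟨hc, -⟩
        rw [sum_eq_single (c v)]
        · rw [ind_pos rfl]; ring
        · intro b _ hb
          rw [ind_neg (Ne.symm hb), mul_zero]
        · intro h; exact absurd (hc v) h
      rw [h3, E_add, hE.const, E_sum]
      have h4 : ∑ y ∈ L' v, (w v y - w v m) * (1 / K) ≤
          ∑ y ∈ L' v, E (fun c => (w v y - w v m) * ind (c v = y)) := by
        refine sum_le_sum fun y hy => ?_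
        rw [E_mul]
        exact mul_le_mul_of_nonneg_left (hmarg v y hy) (by linarith [hmin y hy])
      have h5 : ∑ y ∈ L v, (w v y - w v m) * (1 / K) ≤ ∑ y ∈ L' v, (w v y - w v m) * (1 / K) := by
        rw [← sum_sdiff (hsub v)]
        have : ∑ y ∈ L v \ L' v, (w v y - w v m) * (1 / K) ≤ 0 := by
          apply sum_nonpos
          intro y hy
          rw [mem_sdiff] at hy
          exact mul_nonpos_of_nonpos_of_nonneg (by linarith [htop v m hm y hy.1 hy.2])
            (by positivity)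
        linarith
      have h6 : ∑ y ∈ L v, (w v y - w v m) * (1 / K) = ∑ y ∈ L v, (1 : ℝ) / K * w v y - w v m := by
        simp only [sub_mul]
        rw [sum_sub_distrib, sum_const, hL, nsmul_eq_mul]
        congr 1
        · exact sum_congr rfl fun _ _ => mul_comm _ _
        · field_simp
      linarith
    rw [E_sum] at h1
    have h7 := sum_le_sum fun v (_ : v ∈ univ) => h2 v
    linarith
  obtain ⟨w, hw0, hw1, hwx⟩ := Finset.mem_convexHull'.1 hmem
  rw [sum_image hχinj.injOn] at hw1 hwx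
  refine ⟨fun c => if c ∈ S then w (χ c) else 0, ?_, ?_, ?_⟩
  · intro c
    beta_reduce
    split_ifs with hc
    · exact hw0 _ (mem_image_of_mem _ hc)
    · exact le_rfl
  · rw [← hw1]
    exact sum_congr rfl fun c hc => if_pos hc
  · intro v y hy
    rw [← hx0a v y hy, ← hwx, Finset.sum_apply]
    refine sum_congr rfl fun c hc => ?_
    beta_reduce
    rw [if_pos hc, Pi.smul_apply, hχa, smul_eq_mul]

/-- Choice of the number of rounds and of the working list size. -/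
lemma params {ζ : ℝ} {d : ℕ} (h0 : 0 < ζ) (h1 : ζ ≤ 1 / 100)
    (H : 144 * Real.log (2 * d + 2) ^ 2 ≤ ζ ^ 8 * d) (hd : 1 ≤ d) :
    ∃ R k : ℕ, (k : ℝ) ≤ d / (1 - 6 * ζ) + 1 ∧ (1 - ζ) ^ R ≤ ζ ∧ (d : ℝ) ≤ (1 - 6 * ζ) * k ∧
      2 ≤ ζ * (1 - ζ) ^ R * k ∧
      ((d : ℝ) + 1) ^ (2 * R + 1) *
        (R * ((d + 2) * Real.exp (-(ζ ^ 3 * ((1 - ζ) ^ R) ^ 4 / 8 * k)))) ≤ ζ / k := by
  have hθ : 0 < 1 - ζ := by linarith
  have hex : ∃ R : ℕ, (1 - ζ) ^ R ≤ ζ := by
    obtain ⟨n, hn⟩ := exists_pow_lt_of_lt_one h0 (show 1 - ζ < 1 by linarith)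
    exact ⟨n, hn.le⟩
  set R := Nat.find hex with hR
  have hRs : (1 - ζ) ^ R ≤ ζ := Nat.find_spec hex
  have hR0 : R ≠ 0 := by
    intro h
    rw [h, pow_zero] at hRs
    linarith
  obtain ⟨n, hn⟩ := Nat.exists_eq_succ_of_ne_zero hR0
  have hmin : ζ < (1 - ζ) ^ n := not_le.1 (Nat.find_min hex (by omega))
  have ht : ζ * (1 - ζ) ≤ (1 - ζ) ^ R := by
    rw [hn, pow_succ]
    exact mul_le_mul_of_nonneg_right hmin.le hθ.le
  have hd' : (1 : ℝ) ≤ d := by exact_mod_cast hd
  set M : ℝ := 2 * d + 2 with hM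
  have hM4 : 4 ≤ M := by linarith
  have hlog : 1 ≤ Real.log M := by
    rw [Real.le_log_iff_exp_le (by linarith)]
    linarith [Real.exp_one_lt_d9]
  have hζ1 : ζ ≤ 1 := by linarith
  have h8 : 144 ≤ ζ ^ 8 * d := by nlinarith
  have hp : ∀ j ≤ 8, ζ ^ 8 * d ≤ ζ ^ j * d := fun j hj =>
    mul_le_mul_of_nonneg_right (pow_le_pow_of_le_one h0.le hζ1 hj) (by positivity)
  have h61 : 0 < 1 - 6 * ζ := by linarith
  set k := ⌈(d : ℝ) / (1 - 6 * ζ)⌉₊ with hk
  have hk1 : (d : ℝ) / (1 - 6 * ζ) ≤ k := Nat.le_ceil _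
  have hk2 : (k : ℝ) ≤ d / (1 - 6 * ζ) + 1 := (Nat.ceil_lt_add_one (by positivity)).le
  have hk3 : (d : ℝ) ≤ (1 - 6 * ζ) * k := by rwa [div_le_iff₀ h61, mul_comm] at hk1
  have hk0 : (0 : ℝ) ≤ k := by positivity
  have hdk : (d : ℝ) ≤ k := by nlinarith
  have hkM : (k : ℝ) ≤ M := by
    have : (d : ℝ) / (1 - 6 * ζ) ≤ 2 * d := by
      rw [div_le_iff₀ h61]
      nlinarith
    linarith
  have hinv : 1 / ζ ≤ M := by
    rw [div_le_iff₀ h0]
    have := hp 1 (by norm_num)
    nlinarith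
  have hRle : ζ * R ≤ 2 * Real.log M := by
    have a1 : (1 - ζ) ^ n ≤ Real.exp (-(n * ζ)) := by
      rw [← mul_neg, Real.exp_nat_mul]
      exact pow_le_pow_left₀ hθ.le (by linarith [Real.add_one_le_exp (-ζ)]) n
    have a2 : Real.log ζ < -(n * ζ) := by
      rw [Real.log_lt_iff_lt_exp h0]
      linarith
    have a3 : Real.log (1 / ζ) ≤ Real.log M := Real.log_le_log (by positivity) hinv
    rw [one_div, Real.log_inv] at a3
    rw [hn]
    push_cast
    nlinarith
  have hRM : (R : ℝ) ≤ M := by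
    have a1 := hp 1 (by norm_num)
    have a2 : ζ * R ≤ ζ * d := by nlinarith
    have := le_of_mul_le_mul_left a2 h0
    linarith
  refine ⟨R, k, hk2, hRs, hk3, ?_, ?_⟩
  · have a1 := hp 2 (by norm_num)
    calc (2 : ℝ) ≤ ζ * (ζ * (1 - ζ)) * d := by nlinarith
      _ ≤ ζ * (1 - ζ) ^ R * k := by gcongr
  · have hkpos : (0 : ℝ) < k := by linarith
    set t := (1 - ζ) ^ R
    have a1 : ζ ^ 7 * d / 16 ≤ ζ ^ 3 * t ^ 4 / 8 * k := by
      have b1 : (ζ * (99 / 100)) ^ 4 ≤ t ^ 4 :=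
        pow_le_pow_left₀ (by positivity) (le_trans (by nlinarith) ht) 4
      calc ζ ^ 7 * d / 16 ≤ ζ ^ 3 * (ζ * (99 / 100)) ^ 4 / 8 * d := by
            have : 0 ≤ ζ ^ 7 * d := by positivity
            nlinarith
        _ ≤ ζ ^ 3 * t ^ 4 / 8 * k := by gcongr
    have a2 : ((2 * R + 5 : ℕ) : ℝ) * Real.log M ≤ ζ ^ 7 * d / 16 := by
      have b1 : ζ * ((2 * R + 5 : ℕ) : ℝ) ≤ 9 * Real.log M := by
        push_cast
        nlinarith
      have b2 : ζ * (((2 * R + 5 : ℕ) : ℝ) * Real.log M) ≤ ζ * (ζ ^ 7 * d / 16) := by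
        nlinarith
      exact le_of_mul_le_mul_left b2 h0
    have a3 : M ^ (2 * R + 5) ≤ Real.exp (ζ ^ 3 * t ^ 4 / 8 * k) := by
      rw [← Real.exp_log (show 0 < M by linarith), ← Real.exp_nat_mul]
      exact Real.exp_le_exp.2 (a2.trans a1)
    rw [Real.exp_neg, le_div_iff₀ hkpos]
    have hE := Real.exp_pos (ζ ^ 3 * t ^ 4 / 8 * k)
    have hMpos : 0 < M := by linarith
    calc ((d : ℝ) + 1) ^ (2 * R + 1) * (R * ((d + 2) * (Real.exp (ζ ^ 3 * t ^ 4 / 8 * k))⁻¹)) * k
        ≤ M ^ (2 * R + 1) * (M * (M * (M ^ (2 * R + 5))⁻¹)) * M := by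
          gcongr <;> linarith
      _ = 1 / M := by field_simp; ring
      _ ≤ ζ := by
          rw [div_le_iff₀ hMpos]
          rw [div_le_iff₀ h0] at hinv
          linarith

end Pool.Agent.P.MP_cf7e4d_co
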