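import Pool.Agent.P.MP_cf7e4d_co.Core

/-! Tail estimates and the core theorem. -/

namespace Pool.Agent.P.MP_cf7e4d_co

open Finset

variable {V C : Type*} {ζ : ℝ} {R k d : ℕ}

lemma pow_bounds (h0 : 0 < ζ) (h1 : ζ ≤ 1 / 10) {i : ℕ} (hi : i ≤ R) :
    0 < (1 - ζ) ^ R ∧ (1 - ζ) ^ R ≤ (1 - ζ) ^ i ∧ (1 - ζ) ^ i ≤ 1 := by
  have : 0 < 1 - ζ := by linarith
  exact ⟨by positivity, pow_le_pow_of_le_one this.le (by linarith) hi,
    pow_le_one₀ this.le (by linarith)⟩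

lemma c_le (h0 : 0 < ζ) (h1 : ζ ≤ 1 / 10) {t : ℝ} (ht0 : 0 < t) (ht1 : t ≤ 1) :
    ζ ^ 3 * t ^ 4 / 8 ≤ ζ ^ 2 * t / 2 := by
  have h2 : t ^ 3 ≤ 1 := pow_le_one₀ ht0.le ht1
  have h3 : 0 < ζ ^ 2 * t := by positivity
  have h4 : ζ * t ^ 3 ≤ 1 := by nlinarith [pow_pos ht0 3]
  nlinarith

lemma tail1 [DecidableEq C] (h0 : 0 < ζ) (h1 : ζ ≤ 1 / 10)
    {U : Finset C} {E : ((C → ℕ) → ℝ) →ₗ[ℝ] ℝ} (hE : IsEx (fun _ => True) E)
    (hg : ∀ g : C → ℕ → ℝ, E (fun ℓ => ∏ x ∈ U, g x (ℓ x)) =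
      ∏ x ∈ U, ∑ j ∈ range (R + 1), pp ζ R j * g x j)
    {T : Finset C} (hT : T ⊆ U) (hTk : T.card = k) {i : ℕ} (hi : i < R) :
    E (fun ℓ => ind (∑ x ∈ T, ind (i < ℓ x) ≤ DD ζ k i)) ≤
      Real.exp (-(ζ ^ 3 * ((1 - ζ) ^ R) ^ 4 / 8 * k)) := by
  have h := label_tail (pp_nonneg h0 h1) (pp_sum ζ R) hE hg hT (fun j => ind (i < j))
    (fun j => ind_nonneg _) (fun j => ind_le_one _) (s := 2 * ζ) (by positivity) (DD ζ k i)
  refine h.trans (Real.exp_le_exp.2 ?_)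
  rw [pp_tail ζ hi, hTk, DD, pow_succ]
  obtain ⟨a0, a1, a2⟩ := pow_bounds h0 h1 hi.le
  have h2 := c_le h0 h1 a0 (a1.trans a2)
  set t := (1 - ζ) ^ R
  set u := (1 - ζ) ^ i
  have hk : (0 : ℝ) ≤ k := by positivity
  have h3 : 2 * ζ * ((1 - 4 * ζ) * u) - u * (1 - ζ) * (2 * ζ - (2 * ζ) ^ 2 * 1 / 2) ≤
      -(ζ ^ 3 * t ^ 4 / 8) := by
    have : 0 ≤ ζ ^ 3 * u := by have := a0.trans_le a1; positivity
    have : ζ ^ 2 * t ≤ ζ ^ 2 * u := mul_le_mul_of_nonneg_left a1 (sq_nonneg _)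
    have : 0 ≤ ζ ^ 2 * t := by positivity
    nlinarith
  nlinarith [mul_le_mul_of_nonneg_left h3 hk]

lemma tail2 [DecidableEq C] (h0 : 0 < ζ) (h1 : ζ ≤ 1 / 10) (hk : 0 < k)
    {U : Finset C} {E : ((C → ℕ) → ℝ) →ₗ[ℝ] ℝ} (hE : IsEx (fun _ => True) E)
    (hg : ∀ g : C → ℕ → ℝ, E (fun ℓ => ∏ x ∈ U, g x (ℓ x)) =
      ∏ x ∈ U, ∑ j ∈ range (R + 1), pp ζ R j * g x j)
    {T : Finset C} (hT : T ⊆ U) (hTk : T.card = k) {i : ℕ} (hi : i < R) :
    E (fun ℓ => ind (∑ x ∈ T, ind (ℓ x < i) * rr ζ R k (ℓ x) ≤ i * (ζ * (1 + ζ)) - ζ / 2)) ≤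
      Real.exp (-(ζ ^ 3 * ((1 - ζ) ^ R) ^ 4 / 8 * k)) := by
  obtain ⟨a0, a1, a2⟩ := pow_bounds h0 h1 hi.le
  have hk' : (0 : ℝ) < k := by positivity
  have h := label_tail (pp_nonneg h0 h1) (pp_sum ζ R) hE hg hT
    (fun j => ind (j < i) * rr ζ R k j) (H := (1 + 2 * ζ) / k / (1 - ζ) ^ R)
    (fun j => mul_nonneg (ind_nonneg _) (rr_nonneg h0 h1 j))
    (fun j => (mul_le_of_le_one_left (rr_nonneg h0 h1 j) (ind_le_one _)).trans (rr_le h0 h1 j))
    (s := ζ * (1 - ζ) ^ R * k) (by positivity) (i * (ζ * (1 + ζ)) - ζ / 2)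
  refine h.trans (Real.exp_le_exp.2 ?_)
  rw [pp_mean (by linarith) k hi.le, hTk]
  have h2 := c_le h0 h1 a0 (a1.trans a2)
  set t := (1 - ζ) ^ R
  have h3 : (k : ℝ) * (i * (ζ * ((1 + 2 * ζ) / k)) * (ζ * t * k - (ζ * t * k) ^ 2 *
      ((1 + 2 * ζ) / k / t) / 2)) =
      (ζ * t * k) * (i * ζ) * ((1 + 2 * ζ) * (1 - ζ * (1 + 2 * ζ) / 2)) := by
    field_simp
  rw [h3]
  have h4 : 1 + ζ ≤ (1 + 2 * ζ) * (1 - ζ * (1 + 2 * ζ) / 2) := by
    nlinarith [sq_nonneg ζ, mul_nonneg h0.le (sq_nonneg ζ)]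
  have h5 : 0 ≤ (ζ * t * k) * (i * ζ) := by positivity
  have h6 := mul_le_mul_of_nonneg_left h4 h5
  have h7 := mul_le_mul_of_nonneg_right h2 hk'.le
  nlinarith

lemma tail3 [DecidableEq C] (h0 : 0 < ζ) (h1 : ζ ≤ 1 / 10) (hk : 0 < k)
    (hdk : (d : ℝ) ≤ (1 - 6 * ζ) * k) {L : V → Finset C} (hL : ∀ v, (L v).card = k)
    {U : Finset C} (hU : ∀ v, L v ⊆ U) {ℓ : C → ℕ} {P : (V → Option C) → Prop}
    {E : ((V → Option C) → ℝ) →ₗ[ℝ] ℝ} (hE : IsEx P E) {N : Finset V} (hN : N.card ≤ d)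
    {i : ℕ} (hi : i < R)
    (hmom : ∀ (lam : ℝ), 0 ≤ lam → ∀ w : V → ℝ, (∀ u, 0 ≤ w u) → (∀ u, w u ≤ 1) →
        E (fun ψ => Real.exp (lam * ∑ u ∈ N, w u * ind (late ℓ ψ i u))) ≤
          Real.exp (lam * (∑ u ∈ N, w u *
            ∏ x ∈ U, (1 - ind (x ∈ L u ∧ ℓ x < i) * rr ζ R k (ℓ x))) +
            lam ^ 2 / 2 * ((∑ x ∈ U, ∑ u ∈ N, ind (x ∈ L u)) *
              ((1 + 2 * ζ) / k / (1 - ζ) ^ R *
                (1 + d * ((1 + 2 * ζ) / k / (1 - ζ) ^ R / (2 * ζ)))))))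
    (hr1 : ∀ j, rr ζ R k j ≤ 1)
    (hgood : ∀ u ∈ N,
      ¬ ∑ x ∈ L u, ind (ℓ x < i) * rr ζ R k (ℓ x) ≤ i * (ζ * (1 + ζ)) - ζ / 2) :
    E (fun ψ => ind (DD ζ k i < cnt ℓ ψ i N)) ≤
      Real.exp (-(ζ ^ 3 * ((1 - ζ) ^ R) ^ 4 / 8 * k)) := by
  obtain ⟨a0, a1, a2⟩ := pow_bounds h0 h1 hi.le
  have hk' : (0 : ℝ) < k := by positivity
  set t := (1 - ζ) ^ R with ht
  set lam : ℝ := ζ ^ 2 * t ^ 3 / 4 with hlam
  have hlam0 : 0 ≤ lam := by positivity
  have h2 := hmom lam hlam0 (fun _ => 1) (fun _ => zero_le_one) (fun _ => le_rfl)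
  simp only [one_mul] at h2
  have h3 : E (fun ψ => ind (DD ζ k i < cnt ℓ ψ i N)) ≤ E (fun ψ => Real.exp (-(lam * DD ζ k i)) *
      Real.exp (lam * ∑ u ∈ N, ind (late ℓ ψ i u))) := by
    apply hE.mono
    intro ψ _
    rw [← Real.exp_add]
    by_cases hc : DD ζ k i < cnt ℓ ψ i N
    · rw [ind_pos hc]
      apply Real.one_le_exp
      unfold cnt at hc
      nlinarith
    · rw [ind_neg hc]
      exact (Real.exp_pos _).le
  refine h3.trans ?_
  rw [E_mul]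
  refine (mul_le_mul_of_nonneg_left h2 (Real.exp_pos _).le).trans ?_
  rw [← Real.exp_add]
  apply Real.exp_le_exp.2
  have hsum : ∀ (u : V) (f : C → ℝ), ∑ x ∈ U, ind (x ∈ L u) * f x = ∑ x ∈ L u, f x := by
    intro u f
    rw [← sum_subset (hU u)]
    · exact sum_congr rfl fun x hx => by rw [ind_pos hx, one_mul]
    · intro x _ hx
      rw [ind_neg hx, zero_mul]
  have h4 : ∀ u ∈ N, ∏ x ∈ U, (1 - ind (x ∈ L u ∧ ℓ x < i) * rr ζ R k (ℓ x)) ≤
      (1 + ζ) * (1 - ζ) ^ i := by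
    intro u hu
    have h5 := hgood u hu
    push Not at h5
    calc ∏ x ∈ U, (1 - ind (x ∈ L u ∧ ℓ x < i) * rr ζ R k (ℓ x))
        ≤ ∏ x ∈ U, Real.exp (-(ind (x ∈ L u) * (ind (ℓ x < i) * rr ζ R k (ℓ x)))) := by
          apply prod_le_prod
          · intro x _
            nlinarith [ind_le_one (x ∈ L u ∧ ℓ x < i), ind_nonneg (x ∈ L u ∧ ℓ x < i),
              hr1 (ℓ x), rr_nonneg (R := R) (k := k) h0 h1 (ℓ x)]
          · intro x _
            rw [ind_and, mul_assoc]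
            linarith [Real.add_one_le_exp (-(ind (x ∈ L u) * (ind (ℓ x < i) * rr ζ R k (ℓ x))))]
      _ = Real.exp (-∑ x ∈ L u, ind (ℓ x < i) * rr ζ R k (ℓ x)) := by
          rw [← Real.exp_sum, sum_neg_distrib, hsum]
      _ ≤ Real.exp (ζ / 2 + i * -(ζ * (1 + ζ))) := Real.exp_le_exp.2 (by linarith)
      _ ≤ (1 + ζ) * (1 - ζ) ^ i := by
          rw [Real.exp_add, Real.exp_nat_mul]
          exact mul_le_mul (exp_half h0.le h1)
            (pow_le_pow_left₀ (Real.exp_pos _).le (exp_step h0.le h1) i) (by positivity)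
            (by positivity)
  have hNd : (N.card : ℝ) ≤ d := by exact_mod_cast hN
  have hdk' : (d : ℝ) ≤ k := by nlinarith
  have h6 : ∑ u ∈ N, ∏ x ∈ U, (1 - ind (x ∈ L u ∧ ℓ x < i) * rr ζ R k (ℓ x)) ≤
      (1 - 5 * ζ) * k * (1 - ζ) ^ i := by
    refine (sum_le_sum h4).trans ?_
    rw [sum_const, nsmul_eq_mul, ← mul_assoc]
    apply mul_le_mul_of_nonneg_right _ (a0.le.trans a1)
    calc (N.card : ℝ) * (1 + ζ) ≤ (1 - 6 * ζ) * k * (1 + ζ) :=
          mul_le_mul_of_nonneg_right (hNd.trans hdk) (by positivity)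
      _ ≤ (1 - 5 * ζ) * k := by nlinarith [mul_nonneg hk'.le (sq_nonneg ζ)]
  have h7 : ∑ x ∈ U, ∑ u ∈ N, ind (x ∈ L u) ≤ (k : ℝ) * k := by
    rw [sum_comm]
    have : ∀ u ∈ N, ∑ x ∈ U, ind (x ∈ L u) = (k : ℝ) := by
      intro u _
      have := hsum u (fun _ => 1)
      simpa [hL u] using this
    rw [sum_congr rfl this, sum_const, nsmul_eq_mul]
    exact mul_le_mul_of_nonneg_right (hNd.trans hdk') hk'.le
  have ht1 : t ≤ 1 := a1.trans a2
  have h8 : (1 + 2 * ζ) / k / t * (1 + d * ((1 + 2 * ζ) / k / t / (2 * ζ))) ≤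
      4 / (ζ * t ^ 2 * k) := by
    have b1 : (1 + 2 * ζ) / k / t ≤ 2 / (t * k) := by
      rw [div_div, mul_comm (k : ℝ) t]
      exact div_le_div_of_nonneg_right (by linarith) (by positivity)
    have b2 : (d : ℝ) * ((1 + 2 * ζ) / k / t / (2 * ζ)) ≤ 1 / (ζ * t) := by
      calc (d : ℝ) * ((1 + 2 * ζ) / k / t / (2 * ζ)) ≤ k * (2 / (t * k) / (2 * ζ)) := by
            gcongr
        _ = 1 / (ζ * t) := by field_simp
    have b3 : 1 ≤ 1 / (ζ * t) := by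
      rw [le_div_iff₀ (by positivity)]
      nlinarith
    calc (1 + 2 * ζ) / k / t * (1 + d * ((1 + 2 * ζ) / k / t / (2 * ζ)))
        ≤ 2 / (t * k) * (1 / (ζ * t) + 1 / (ζ * t)) := by gcongr
      _ = 4 / (ζ * t ^ 2 * k) := by field_simp; ring
  have h9 : (∑ x ∈ U, ∑ u ∈ N, ind (x ∈ L u)) *
      ((1 + 2 * ζ) / k / t * (1 + d * ((1 + 2 * ζ) / k / t / (2 * ζ)))) ≤
      4 * k / (ζ * t ^ 2) := by
    calc _ ≤ (k : ℝ) * k * (4 / (ζ * t ^ 2 * k)) :=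
          mul_le_mul h7 h8 (by positivity) (by positivity)
      _ = 4 * k / (ζ * t ^ 2) := by field_simp
  have h10 := mul_le_mul_of_nonneg_left h9 (show 0 ≤ lam ^ 2 / 2 by positivity)
  have h11 := mul_le_mul_of_nonneg_left h6 hlam0
  have h12 : lam ^ 2 / 2 * (4 * k / (ζ * t ^ 2)) = ζ ^ 3 * t ^ 4 / 8 * k := by
    rw [hlam]; field_simp; ring
  have h13 : lam * (ζ * k * t) = 2 * (ζ ^ 3 * t ^ 4 / 8 * k) := by rw [hlam]; ring
  have h14 : lam * (ζ * k * t) ≤ lam * (ζ * k * (1 - ζ) ^ i) := by gcongr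
  unfold DD
  nlinarith

theorem core [Fintype V] [DecidableEq V] [DecidableEq C]
    (B : V → Finset V) (ord : V → ℕ) (hB : ∀ v, ∀ u ∈ B v, ord u < ord v)
    (L : V → Finset C) (hd : ∀ v, (B v).card ≤ d) (hL : ∀ v, (L v).card = k)
    (h0 : 0 < ζ) (h1 : ζ ≤ 1 / 10) (ht : (1 - ζ) ^ R ≤ ζ) (hdk : (d : ℝ) ≤ (1 - 6 * ζ) * k)
    (hk1 : 2 ≤ ζ * (1 - ζ) ^ R * k)
    (herr : ((d : ℝ) + 1) ^ (2 * R + 1) *
      (R * ((d + 2) * Real.exp (-(ζ ^ 3 * ((1 - ζ) ^ R) ^ 4 / 8 * k)))) ≤ ζ / k) :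
    ∃ E : ((V → C) → ℝ) →ₗ[ℝ] ℝ, IsEx (fun c => ∀ v, c v ∈ L v ∧ ∀ u ∈ B v, c u ≠ c v) E ∧
      ∀ v, ∀ y ∈ L v, (1 - 6 * ζ) / k ≤ E (fun c => ind (c v = y)) := by
  obtain ⟨a0, -, a2⟩ := pow_bounds (R := R) h0 h1 le_rfl
  have hk : 0 < k := by
    rcases Nat.eq_zero_or_pos k with rfl | h
    · simp at hk1; linarith
    · exact h
  have hk' : (0 : ℝ) < k := by positivity
  have hrmax : (1 + 2 * ζ) / k / (1 - ζ) ^ R ≤ (1 + 2 * ζ) * ζ / 2 := by
    rw [div_div, div_le_div_iff₀ (by positivity) (by positivity)]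
    nlinarith
  have hra : ∀ j, rr ζ R k j ≤ 2 * ζ := fun j => (rr_le h0 h1 j).trans (hrmax.trans (by nlinarith))
  have hr1 : ∀ j, rr ζ R k j ≤ 1 := fun j => (hra j).trans (by linarith)
  set U : Finset C := univ.biUnion L with hUdef
  have hU : ∀ v, L v ⊆ U := fun v => subset_biUnion_of_mem L (mem_univ v)
  obtain ⟨E, hE, hg⟩ := labels (range (R + 1)) (pp ζ R) (pp_nonneg h0 h1) (pp_sum ζ R) U
  have hκ : ∀ j, rr ζ R k j * (1 + d * (rr ζ R k j / (2 * ζ))) ≤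
      (1 + 2 * ζ) / k / (1 - ζ) ^ R * (1 + d * ((1 + 2 * ζ) / k / (1 - ζ) ^ R / (2 * ζ))) := by
    intro j
    have := rr_nonneg (R := R) (k := k) h0 h1 j
    have := rr_le (R := R) (k := k) h0 h1 j
    gcongr
  choose F hF hFb hFc hFd using fun ℓ : C → ℕ =>
    process B ord hB L ℓ (rr ζ R k) (DD ζ k) (a := 2 * ζ) (d := d) (rr_nonneg h0 h1)
      (by positivity) hra (by linarith) (DD_rr h0 h1 hk) hκ U
  have hBL : ∀ v, (B v).card < (L v).card := by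
    intro v
    rw [hL]
    have h2 : (d : ℝ) < k := by nlinarith
    have h3 : d < k := by exact_mod_cast h2
    exact lt_of_le_of_lt (hd v) h3
  choose col hcol using complete B ord hB L hBL
  refine ⟨bind E (fun ℓ => push (F ℓ) (col ℓ)), hE.bind fun ℓ _ => (hF ℓ).push _ ?_, ?_⟩
  · intro ψ _ v
    exact ⟨(hcol ℓ ψ v).1, (hcol ℓ ψ v).2.1⟩
  intro v y hy
  set ε : ℝ := Real.exp (-(ζ ^ 3 * ((1 - ζ) ^ R) ^ 4 / 8 * k)) with hε
  -- probability that a vertex is not good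
  have hbad : ∀ z, E (fun ℓ => F ℓ (fun ψ => ind (¬ Good B L (DD ζ k) R ℓ ψ z))) ≤
      R * ((d + 2) * ε) := by
    intro z
    have h2 : E (fun ℓ => F ℓ (fun ψ => ind (¬ Good B L (DD ζ k) R ℓ ψ z))) ≤
        E (fun ℓ => ∑ i ∈ range R, ((ε + ∑ u ∈ B z,
          ind (∑ x ∈ L u, ind (ℓ x < i) * rr ζ R k (ℓ x) ≤ i * (ζ * (1 + ζ)) - ζ / 2)) +
          ind (∑ x ∈ L z, ind (i < ℓ x) ≤ DD ζ k i))) := by
      apply hE.mono
      intro ℓ _
      have h3 : F ℓ (fun ψ => ind (¬ Good B L (DD ζ k) R ℓ ψ z)) ≤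
          F ℓ (fun ψ => ∑ i ∈ range R, (ind (DD ζ k i < cnt ℓ ψ i (B z)) +
            ind (∑ x ∈ L z, ind (i < ℓ x) ≤ DD ζ k i))) := by
        apply (hF ℓ).mono
        intro ψ _
        have hnn : ∀ i ∈ range R, 0 ≤ ind (DD ζ k i < cnt ℓ ψ i (B z)) +
            ind (∑ x ∈ L z, ind (i < ℓ x) ≤ DD ζ k i) :=
          fun i _ => add_nonneg (ind_nonneg _) (ind_nonneg _)
        by_cases hG : Good B L (DD ζ k) R ℓ ψ z
        · rw [ind_neg (not_not.2 hG)]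
          exact sum_nonneg hnn
        · rw [ind_pos hG]
          unfold Good at hG
          push Not at hG
          obtain ⟨i, hi, hG⟩ := hG
          refine le_trans ?_ (single_le_sum hnn (mem_range.2 hi))
          by_cases hc : DD ζ k i < cnt ℓ ψ i (B z)
          · rw [ind_pos hc]
            linarith [ind_nonneg (∑ x ∈ L z, ind (i < ℓ x) ≤ DD ζ k i)]
          · rw [ind_neg hc, ind_pos (hG (not_lt.1 hc))]
            linarith
      refine h3.trans ?_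
      rw [E_sum]
      refine sum_le_sum fun i hi => ?_
      rw [E_add, (hF ℓ).const]
      refine add_le_add ?_ le_rfl
      have hnn : ∀ u ∈ B z, 0 ≤
          ind (∑ x ∈ L u, ind (ℓ x < i) * rr ζ R k (ℓ x) ≤ i * (ζ * (1 + ζ)) - ζ / 2) :=
        fun _ _ => ind_nonneg _
      by_cases hgood : ∀ u ∈ B z,
          ¬ ∑ x ∈ L u, ind (ℓ x < i) * rr ζ R k (ℓ x) ≤ i * (ζ * (1 + ζ)) - ζ / 2
      · have := tail3 h0 h1 hk hdk hL hU (hF ℓ) (hd z) (mem_range.1 hi)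
          (hFd ℓ (B z) (hd z) i) hr1 hgood
        linarith [sum_nonneg hnn]
      · simp only [not_forall, not_not, exists_prop] at hgood
        obtain ⟨u, hu, hgood⟩ := hgood
        have h4 := single_le_sum hnn hu
        rw [ind_pos hgood] at h4
        have h5 := (hF ℓ).le_const (f := fun ψ => ind (DD ζ k i < cnt ℓ ψ i (B z))) (c := 1)
          (fun _ _ => ind_le_one _)
        have : 0 < ε := Real.exp_pos _
        linarith
    refine h2.trans ?_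
    rw [E_sum]
    calc _ ≤ ∑ _i ∈ range R, ((d : ℝ) + 2) * ε := by
          refine sum_le_sum fun i hi => ?_
          rw [E_add, E_add, hE.const, E_sum]
          have h6 := tail1 h0 h1 hE hg (hU z) (hL z) (mem_range.1 hi)
          have h7 : ∑ u ∈ B z, E (fun ℓ =>
              ind (∑ x ∈ L u, ind (ℓ x < i) * rr ζ R k (ℓ x) ≤ i * (ζ * (1 + ζ)) - ζ / 2)) ≤
              ∑ _u ∈ B z, ε :=
            sum_le_sum fun u _ => tail2 h0 h1 hk hE hg (hU u) (hL u) (mem_range.1 hi)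
          rw [sum_const, nsmul_eq_mul] at h7
          have h8 : ((B z).card : ℝ) ≤ d := by exact_mod_cast hd z
          have : 0 < ε := Real.exp_pos _
          nlinarith
      _ = R * ((d + 2) * ε) := by simp
  -- the marginal of the tentative colouring
  have hmarg : (1 - 5 * ζ) / k ≤
      E (fun ℓ => ind (ℓ y < R) * F ℓ (fun ψ => ind (ψ v = some y))) := by
    have hx : ∀ i < R, ((i + 1 : ℕ) : ℝ) * (ζ * ((1 + 2 * ζ) / k)) * (1 + ζ) ≤ ζ := by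
      intro i hi
      rw [← pp_mean (by linarith) k (show i + 1 ≤ R by omega)]
      have h2 : ∑ j ∈ range (R + 1), pp ζ R j * (ind (j < i + 1) * rr ζ R k j) ≤
          ∑ j ∈ range (R + 1), pp ζ R j * ((1 + 2 * ζ) * ζ / 2) :=
        sum_le_sum fun j _ => mul_le_mul_of_nonneg_left
          ((mul_le_of_le_one_left (rr_nonneg h0 h1 j) (ind_le_one _)).trans
            ((rr_le h0 h1 j).trans hrmax)) (pp_nonneg h0 h1 j)
      rw [← sum_mul, pp_sum, one_mul] at h2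
      have h3 := mul_le_mul_of_nonneg_right h2 (show 0 ≤ 1 + ζ by positivity)
      nlinarith [sq_nonneg ζ, mul_nonneg h0.le (sq_nonneg ζ)]
    refine (marg_sum h0 h1 hk ht hx).trans ?_
    set g : ℕ → C → ℕ → ℝ := fun i x j => if x = y then ind (j = i) * rr ζ R k i
      else 1 - ind (x ∈ L v) * (ind (j < i + 1) * rr ζ R k j) with hgdef
    have h4 : E (fun ℓ => ∑ i ∈ range R, ∏ x ∈ U, g i x (ℓ x)) ≤
        E (fun ℓ => ind (ℓ y < R) * F ℓ (fun ψ => ind (ψ v = some y))) := by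
      apply hE.mono
      intro ℓ _
      have h5 : ∀ i, ∏ x ∈ U, g i x (ℓ x) = ind (ℓ y = i) * (rr ζ R k i *
          ∏ x ∈ U.erase y, (1 - ind (x ∈ L v ∧ ℓ x ≤ i) * rr ζ R k (ℓ x))) := by
        intro i
        rw [← mul_prod_erase U _ (hU v hy), ← mul_assoc]
        congr 1
        · simp [hgdef]
        · refine prod_congr rfl fun x hx => ?_
          simp only [hgdef, (mem_erase.1 hx).1, if_false]
          rw [ind_and, ind_congr (Nat.lt_succ_iff), mul_assoc]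
      simp only [h5]
      by_cases hlt : ℓ y < R
      · rw [ind_pos hlt, one_mul, sum_eq_single (ℓ y)]
        · rw [ind_pos rfl, one_mul]
          exact hFc ℓ v y (hU v hy) hy
        · intro b _ hb
          rw [ind_neg (Ne.symm hb), zero_mul]
        · intro h
          exact absurd (mem_range.2 hlt) h
      · rw [ind_neg hlt, zero_mul, sum_eq_zero]
        intro i hi
        rw [ind_neg (fun h : ℓ y = i => hlt (h ▸ mem_range.1 hi)), zero_mul]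
    refine le_trans ?_ h4
    rw [E_sum]
    refine sum_le_sum fun i hi => ?_
    have hi' := mem_range.1 hi
    rw [hg (g i), ← mul_prod_erase U _ (hU v hy)]
    have h6 : ∑ j ∈ range (R + 1), pp ζ R j * g i y j = ζ * ((1 + 2 * ζ) / k) := by
      simp only [hgdef, if_true]
      rw [sum_eq_single i]
      · rw [ind_pos rfl, one_mul, pp_rr (by linarith) k hi']
      · intro b _ hb
        rw [ind_neg hb]; ring
      · intro h
        exact absurd (mem_range.2 (by omega)) h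
    rw [h6]
    apply mul_le_mul_of_nonneg_left _ (by positivity)
    set b : ℝ := ((i + 1 : ℕ) : ℝ) * (ζ * ((1 + 2 * ζ) / k)) with hb
    have hb0 : 0 ≤ b := by positivity
    have hb1 : b ≤ 1 := by nlinarith [hx i hi']
    have h7 : ∀ x ∈ U.erase y, ∑ j ∈ range (R + 1), pp ζ R j * g i x j =
        if x ∈ L v then 1 - b else 1 := by
      intro x hx
      simp only [hgdef, (mem_erase.1 hx).1, if_false, mul_sub, mul_one]
      rw [sum_sub_distrib, pp_sum]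
      by_cases hxL : x ∈ L v
      · rw [if_pos hxL]
        simp only [ind_pos hxL, one_mul]
        rw [pp_mean (show ζ < 1 by linarith) k (show i + 1 ≤ R by omega)]
      · rw [if_neg hxL]
        simp only [ind_neg hxL, zero_mul, mul_zero, sum_const_zero, sub_zero]
    rw [prod_congr rfl h7, prod_ite_mem, prod_const]
    apply pow_le_pow_of_le_one (by linarith) (by linarith)
    rw [← hL v]
    exact card_le_card inter_subset_right
  rw [bind_apply]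
  have h8 : E (fun ℓ => ind (ℓ y < R) * F ℓ (fun ψ => ind (ψ v = some y)) -
      ∑ z ∈ ball B (2 * R + 1) v, F ℓ (fun ψ => ind (¬ Good B L (DD ζ k) R ℓ ψ z))) ≤
      E (fun ℓ => push (F ℓ) (col ℓ) (fun c => ind (c v = y))) := by
    apply hE.mono
    intro ℓ _
    rw [push_apply, ← E_mul, ← E_sum, ← E_sub]
    apply (hF ℓ).mono
    intro ψ hψ
    have hnn : ∀ z ∈ ball B (2 * R + 1) v, 0 ≤ ind (¬ Good B L (DD ζ k) R ℓ ψ z) :=
      fun _ _ => ind_nonneg _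
    rw [← ind_and]
    by_cases hG : ∀ z ∈ ball B (2 * R + 1) v, Good B L (DD ζ k) R ℓ ψ z
    · have := ind_mono (p := ℓ y < R ∧ ψ v = some y) (q := col ℓ ψ v = y)
        fun h => keep hψ (hcol ℓ ψ) h.2 h.1 hG
      linarith [sum_nonneg hnn]
    · push Not at hG
      obtain ⟨z, hz, hG⟩ := hG
      have h9 := single_le_sum hnn hz
      rw [ind_pos hG] at h9
      linarith [ind_le_one (ℓ y < R ∧ ψ v = some y), ind_nonneg (col ℓ ψ v = y)]
  refine le_trans ?_ h8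
  rw [E_sub, E_sum]
  have h10 : ∑ z ∈ ball B (2 * R + 1) v,
      E (fun ℓ => F ℓ (fun ψ => ind (¬ Good B L (DD ζ k) R ℓ ψ z))) ≤ ζ / k := by
    refine (sum_le_sum fun z _ => hbad z).trans (le_trans ?_ herr)
    rw [sum_const, nsmul_eq_mul]
    apply mul_le_mul_of_nonneg_right _ (by positivity)
    exact_mod_cast card_ball B hd _ v
  have : (1 - 6 * ζ) / k = (1 - 5 * ζ) / k - ζ / k := by ring
  linarith

end Pool.Agent.P.MP_cf7e4d_co
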